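import Mathlib

/-!
# The numerical part
-/

set_option autoImplicit false

namespace Pool.Agent.Helper4.RC

theorem ar_deg {K d w : ℕ} (hd1 : 1 ≤ d) (hdK : d ≤ K) (hw : 9 * K ≤ w) :
    ((32 * K + 1) * d * w + (2 * d * w + 5 * K) * (4 * K)) + 12 * K * w ≤
      d * (64 * K * w - (2 * d * w + 5 * K)) := by
  have h1 : d * d * w ≤ K * d * w := Nat.mul_le_mul_right _ (Nat.mul_le_mul_right _ hdK)
  have h2 : d * w ≤ K * d * w := by
    rw [mul_assoc]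
    exact Nat.le_mul_of_pos_left _ (by omega)
  have h3 : K * w ≤ K * d * w := Nat.mul_le_mul_right _ (Nat.le_mul_of_pos_right _ (by omega))
  have h4 : K * (9 * K) ≤ K * w := Nat.mul_le_mul_left _ hw
  have h5 : K * d ≤ K * K := Nat.mul_le_mul_left _ hdK
  rw [Nat.mul_sub]
  have e1 : d * (2 * d * w + 5 * K) = 2 * (d * d * w) + 5 * (K * d) := by ring
  have e2 : d * (64 * K * w) = 64 * (K * d * w) := by ring
  have e3 : (32 * K + 1) * d * w + (2 * d * w + 5 * K) * (4 * K) + 12 * K * w =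
      40 * (K * d * w) + d * w + 20 * (K * K) + 12 * (K * w) := by ring
  have e4 : K * (9 * K) = 9 * (K * K) := by ring
  rw [e1, e2, e3]
  omega

theorem ar_J {K d w : ℕ} (hd1 : 1 ≤ d) (hdK : d ≤ K) (hw : 9 * K ≤ w) :
    2 * d * w + 5 * K ≤ 3 * (K * w) := by
  have h1 : d * w ≤ K * w := Nat.mul_le_mul_right _ hdK
  have h2 : K * (9 * K) ≤ K * w := Nat.mul_le_mul_left _ hw
  have h3 : K ≤ K * K := Nat.le_mul_of_pos_left _ (by omega)
  have e1 : 2 * d * w = 2 * (d * w) := by ring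
  have e4 : K * (9 * K) = 9 * (K * K) := by ring
  omega

theorem ar_n {K d w : ℕ} (hd1 : 1 ≤ d) (hdK : d ≤ K) :
    (32 * K + 1) * d * w ≤ 33 * (K ^ 2 * w) := by
  have h1 : (32 * K + 1) * d ≤ (33 * K) * K := Nat.mul_le_mul (by omega) hdK
  calc (32 * K + 1) * d * w ≤ (33 * K) * K * w := Nat.mul_le_mul_right _ h1
    _ = _ := by ring

theorem ar_pow {K w a b : ℕ} (hK : 1 ≤ K) (ha : a ≤ b) : K ^ a * w ≤ K ^ b * w :=
  Nat.mul_le_mul_right _ (Nat.pow_le_pow_right hK ha)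

theorem ar_D {K w n J : ℕ} (hn : n ≤ 33 * (K ^ 2 * w)) (hJ : J ≤ 3 * (K * w)) :
    n + J * (4 * K) ≤ 45 * (K ^ 2 * w) := by
  have a4 : J * (4 * K) ≤ 12 * (K ^ 2 * w) := by
    calc J * (4 * K) ≤ 3 * (K * w) * (4 * K) := Nat.mul_le_mul_right _ hJ
      _ = _ := by ring
  omega

/-- the exponent of `Q` -/
theorem ar_Q {K w p n J : ℕ} (hK : 1 ≤ K) (hp : p ≤ 264 * K ^ 3 * w) (hn : n ≤ 33 * (K ^ 2 * w))
    (hJ : J ≤ 3 * (K * w)) :
    64 * K * w + 2 * p + 4 * J + (n + (2 * K + 2) * p) * (32 * K) + (n + J * (4 * K)) ≤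
      36000 * K ^ 5 * w := by
  have a0 := ar_D hn hJ
  have a1 : p ≤ 264 * (K ^ 3 * w) := by
    calc p ≤ 264 * K ^ 3 * w := hp
      _ = _ := by ring
  have a2 : n * (32 * K) ≤ 1056 * (K ^ 3 * w) := by
    calc n * (32 * K) ≤ 33 * (K ^ 2 * w) * (32 * K) := Nat.mul_le_mul_right _ hn
      _ = _ := by ring
  have a3 : (2 * K + 2) * p * (32 * K) ≤ 33792 * (K ^ 5 * w) := by
    calc (2 * K + 2) * p * (32 * K) ≤ (4 * K) * (264 * K ^ 3 * w) * (32 * K) :=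
          Nat.mul_le_mul_right _ (Nat.mul_le_mul (by omega) hp)
      _ = _ := by ring
  have b2 := ar_pow (w := w) hK (show 3 ≤ 5 by norm_num)
  have b3 := ar_pow (w := w) hK (show 2 ≤ 5 by norm_num)
  have b4 := ar_pow (w := w) hK (show 1 ≤ 5 by norm_num)
  rw [pow_one] at b4
  have e1 : (n + (2 * K + 2) * p) * (32 * K) = n * (32 * K) + (2 * K + 2) * p * (32 * K) := by ring
  have e2 : 36000 * K ^ 5 * w = 36000 * (K ^ 5 * w) := by ring
  have e3 : 64 * K * w = 64 * (K * w) := by ring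
  rw [e1, e2, e3]
  omega

/-- the numerical contradiction -/
theorem numeric {K w p n J t Q : ℕ} (hK : 1 ≤ K) (hw : 9 * K ≤ w) (hp : p ≤ 264 * K ^ 3 * w)
    (hn : n ≤ 33 * (K ^ 2 * w)) (hJ : J ≤ 3 * (K * w)) (hQ : 1 ≤ Q) (ht : 2 ≤ t)
    (h1 : Q ^ (36000 * K ^ 5) ≤ t) (h2 : (600 * K ^ 4 * w) ^ (40 * K) ≤ t)
    (h : t ^ ((n + J * (4 * K)) + 12 * K * w) ≤ Q ^ (64 * K * w) * (Q ^ (2 * p) * (2 *
      ((Q ^ 4 * ((n + J * (4 * K)) + 2 * p * K)) ^ J *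
        (n * (2 * n * Q ^ (n + (2 * K + 2) * p)) ^ (32 * K))) * (Q * t) ^ (n + J * (4 * K))))) :
    False := by
  have hDle := ar_D hn hJ
  obtain ⟨D, hD⟩ : ∃ D, D = n + J * (4 * K) := ⟨_, rfl⟩
  obtain ⟨Z, hZ⟩ : ∃ Z, Z = 600 * K ^ 4 * w := ⟨_, rfl⟩
  rw [← hD] at hDle
  rw [← hZ] at h2
  have hw1 : 1 ≤ w := by omega
  have hKw : 1 ≤ K ^ 4 * w := Nat.mul_pos (by positivity) (by omega)
  have hZe : Z = 600 * (K ^ 4 * w) := by rw [hZ]; ring
  have b3 := ar_pow (w := w) hK (show 2 ≤ 4 by norm_num)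
  have hDZ : D + 2 * p * K ≤ Z := by
    have a2 : 2 * p * K ≤ 528 * (K ^ 4 * w) := by
      calc 2 * p * K = p * (2 * K) := by ring
        _ ≤ (264 * K ^ 3 * w) * (2 * K) := Nat.mul_le_mul_right _ hp
        _ = _ := by ring
    omega
  have hnZ : 2 * n ≤ Z := by omega
  have htw : 2 ≤ t ^ w := ht.trans (Nat.le_self_pow (by omega) t)
  have f1 : Q ^ (64 * K * w) * (Q ^ (2 * p) * (Q ^ (4 * J) *
      (Q ^ ((n + (2 * K + 2) * p) * (32 * K)) * Q ^ D))) ≤ t ^ w := by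
    rw [← pow_add, ← pow_add, ← pow_add, ← pow_add]
    calc _ ≤ Q ^ (36000 * K ^ 5 * w) := by
          apply Nat.pow_le_pow_right hQ
          have := ar_Q hK hp hn hJ
          rw [hD]
          omega
      _ = (Q ^ (36000 * K ^ 5)) ^ w := by rw [← pow_mul]
      _ ≤ t ^ w := Nat.pow_le_pow_left h1 _
  have f3 : (D + 2 * p * K) ^ J ≤ t ^ w := by
    calc (D + 2 * p * K) ^ J ≤ Z ^ J := Nat.pow_le_pow_left hDZ _
      _ ≤ Z ^ (40 * K * w) := by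
          apply Nat.pow_le_pow_right (by omega)
          have h5 : 40 * K * w = 40 * (K * w) := by ring
          omega
      _ = (Z ^ (40 * K)) ^ w := by rw [← pow_mul]
      _ ≤ t ^ w := Nat.pow_le_pow_left h2 _
  have f4 : n * (2 * n) ^ (32 * K) ≤ t ^ w := by
    calc n * (2 * n) ^ (32 * K) ≤ Z * Z ^ (32 * K) :=
          Nat.mul_le_mul (by omega) (Nat.pow_le_pow_left hnZ _)
      _ = Z ^ (32 * K + 1) := by rw [pow_succ, mul_comm]
      _ ≤ Z ^ (40 * K) := Nat.pow_le_pow_right (by omega) (by omega)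
      _ ≤ t := h2
      _ ≤ t ^ w := Nat.le_self_pow (by omega) t
  have hR : Q ^ (64 * K * w) * (Q ^ (2 * p) * (2 * ((Q ^ 4 * (D + 2 * p * K)) ^ J *
        (n * (2 * n * Q ^ (n + (2 * K + 2) * p)) ^ (32 * K))) * (Q * t) ^ D)) =
      (Q ^ (64 * K * w) * (Q ^ (2 * p) * (Q ^ (4 * J) *
      (Q ^ ((n + (2 * K + 2) * p) * (32 * K)) * Q ^ D)))) * 2 *
      ((D + 2 * p * K) ^ J) * (n * (2 * n) ^ (32 * K)) * t ^ D := by
    rw [mul_pow (Q ^ 4), mul_pow (2 * n), mul_pow Q t, pow_mul Q 4 J,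
      pow_mul Q (n + (2 * K + 2) * p) (32 * K)]
    ring
  rw [← hD, hR] at h
  have h3 : t ^ (D + 12 * K * w) ≤ t ^ w * t ^ w * t ^ w * t ^ w * t ^ D :=
    h.trans (Nat.mul_le_mul_right _ (Nat.mul_le_mul (Nat.mul_le_mul (Nat.mul_le_mul f1 htw) f3) f4))
  rw [← pow_add, ← pow_add, ← pow_add, ← pow_add] at h3
  have h4 := (Nat.pow_le_pow_iff_right (by omega : 1 < t)).mp h3
  have h5 : 12 * w ≤ 12 * K * w := Nat.mul_le_mul_right _ (by omega)
  omega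

/-- the numerical contradiction for small second and third exponents -/
theorem small_others {K d p q r t Q x y z n : ℕ} (hp : 1 ≤ p) (hd : 1 ≤ d)
    (hxt : t ^ d ≤ Q * x) (hy : y ≤ Q * t ^ K) (hz : z ≤ Q * t ^ K)
    (hx : x ^ p ≤ y ^ q + z ^ r) (hqn : q ≤ n) (hrn : r ≤ n) (hn : 4 * K * n ≤ p) (hK : 1 ≤ K)
    (hQ1 : 1 ≤ Q) (hQ : 16 * Q ^ 8 ≤ t) : False := by
  have ht : 16 ≤ t := by
    have : 1 ≤ Q ^ 8 := Nat.one_le_pow _ _ hQ1
    omega
  have h1 : 1 ≤ Q * t ^ K := Nat.mul_pos (by omega) (by positivity)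
  have h2 : ∀ {y q : ℕ}, y ≤ Q * t ^ K → q ≤ n → y ^ q ≤ (Q * t ^ K) ^ n := fun hy hq =>
    (Nat.pow_le_pow_left hy _).trans (Nat.pow_le_pow_right h1 hq)
  have h3 : t ^ p ≤ Q ^ p * (2 * (Q * t ^ K) ^ n) := by
    calc t ^ p ≤ (t ^ d) ^ p := Nat.pow_le_pow_left (Nat.le_self_pow (by omega) t) p
      _ ≤ (Q * x) ^ p := Nat.pow_le_pow_left hxt p
      _ = Q ^ p * x ^ p := mul_pow _ _ _
      _ ≤ Q ^ p * (y ^ q + z ^ r) := Nat.mul_le_mul_left _ hx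
      _ ≤ Q ^ p * (2 * (Q * t ^ K) ^ n) := by
          refine Nat.mul_le_mul_left _ ?_
          have := h2 hy hqn
          have := h2 hz hrn
          omega
  have hnp : n ≤ p := by
    have : n ≤ 4 * K * n := Nat.le_mul_of_pos_left _ (by omega)
    omega
  have h4 : (t ^ p) ^ 4 ≤ (t ^ p) ^ 2 := by
    calc (t ^ p) ^ 4 ≤ (Q ^ p * (2 * (Q * t ^ K) ^ n)) ^ 4 := Nat.pow_le_pow_left h3 4
      _ = 16 * (Q ^ (4 * p) * Q ^ (4 * n)) * t ^ (4 * K * n) := by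
          rw [mul_pow, mul_pow, ← pow_mul, ← pow_mul, mul_pow, ← pow_mul, mul_comm p 4,
            mul_comm n 4]
          have e1 : K * (4 * n) = 4 * K * n := by ring
          rw [e1]
          ring
      _ ≤ (16 ^ p * (Q ^ 8) ^ p) * t ^ p := by
          refine Nat.mul_le_mul (Nat.mul_le_mul ?_ ?_) ?_
          · exact Nat.le_self_pow (by omega) 16
          · rw [← pow_add, ← pow_mul]
            exact Nat.pow_le_pow_right hQ1 (by omega)
          · exact Nat.pow_le_pow_right (by omega) hn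
      _ = (16 * Q ^ 8) ^ p * t ^ p := by rw [mul_pow]
      _ ≤ t ^ p * t ^ p := Nat.mul_le_mul_right _ (Nat.pow_le_pow_left hQ p)
      _ = (t ^ p) ^ 2 := by ring
  have h5 : 1 < t ^ p := Nat.one_lt_pow (by omega) (by omega)
  have h6 := (Nat.pow_le_pow_iff_right h5).mp h4
  omega

end Pool.Agent.Helper4.RC
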