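import Mathlib
import Pool.Agent.Helper4.PC.Norm

/-!
# The values of binary forms
-/

set_option autoImplicit false

namespace Pool.Agent.Helper4.RC

open Polynomial Finset
open Pool.Agent.Helper4.PC (l1 l1_eq)

/-- the value at `(u, v)` of the binary form of degree `d` with the coefficients of `P` -/
def hv (d : ℕ) (P : ℤ[X]) (u v : ℤ) : ℤ := ∑ i ∈ range (d + 1), P.coeff i * u ^ i * v ^ (d - i)

/-- the embedding of the integers in the rational numbers -/
abbrev ι : ℤ →+* ℚ := Int.castRingHom ℚ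

theorem hv_cast {d : ℕ} {P : ℤ[X]} (hP : P.natDegree ≤ d) (u : ℤ) {v : ℤ} (hv0 : v ≠ 0) :
    (hv d P u v : ℚ) = (v : ℚ) ^ d * (P.map ι).eval ((u : ℚ) / v) := by
  have hv0' : (v : ℚ) ≠ 0 := by exact_mod_cast hv0
  rw [eval_eq_sum_range' (n := d + 1) (by rw [natDegree_map_eq_of_injective Int.cast_injective]; omega),
    hv, Finset.mul_sum]
  push_cast
  refine Finset.sum_congr rfl fun i hi => ?_
  rw [mem_range] at hi
  rw [coeff_map, div_pow]
  have h1 : (v : ℚ) ^ d = (v : ℚ) ^ (d - i) * (v : ℚ) ^ i := by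
    rw [← pow_add]
    congr 1
    omega
  rw [h1]
  field_simp
  simp only [eq_intCast]
  ring

theorem hv_zero_right (d : ℕ) (P : ℤ[X]) (u : ℤ) : hv d P u 0 = P.coeff d * u ^ d := by
  rw [hv, Finset.sum_range_succ, Finset.sum_eq_zero, Nat.sub_self, pow_zero, mul_one, zero_add]
  intro i hi
  rw [mem_range] at hi
  rw [zero_pow (by omega), mul_zero]

theorem hv_mul {a b : ℕ} {P R : ℤ[X]} (hP : P.natDegree ≤ a) (hR : R.natDegree ≤ b) (u v : ℤ) :
    hv (a + b) (P * R) u v = hv a P u v * hv b R u v := by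
  by_cases hv0 : v = 0
  · subst hv0
    rw [hv_zero_right, hv_zero_right, hv_zero_right, coeff_mul_add_eq_of_natDegree_le hP hR, pow_add]
    ring
  · have h1 : ((hv (a + b) (P * R) u v : ℤ) : ℚ) = ((hv a P u v * hv b R u v : ℤ) : ℚ) := by
      push_cast
      rw [hv_cast (natDegree_mul_le.trans (by omega)) u hv0, hv_cast hP u hv0, hv_cast hR u hv0,
        Polynomial.map_mul, eval_mul, pow_add]
      ring
    exact_mod_cast h1

theorem hv_add (d : ℕ) (P R : ℤ[X]) (u v : ℤ) : hv d (P + R) u v = hv d P u v + hv d R u v := by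
  rw [hv, hv, hv, ← Finset.sum_add_distrib]
  refine Finset.sum_congr rfl fun i _ => ?_
  rw [coeff_add]
  ring

theorem hv_sub (d : ℕ) (P R : ℤ[X]) (u v : ℤ) : hv d (P - R) u v = hv d P u v - hv d R u v := by
  rw [hv, hv, hv, ← Finset.sum_sub_distrib]
  refine Finset.sum_congr rfl fun i _ => ?_
  rw [coeff_sub]
  ring

theorem hv_C_mul (d : ℕ) (c : ℤ) (P : ℤ[X]) (u v : ℤ) : hv d (C c * P) u v = c * hv d P u v := by
  rw [hv, hv, Finset.mul_sum]
  refine Finset.sum_congr rfl fun i _ => ?_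
  rw [coeff_C_mul]
  ring

theorem hv_C (d : ℕ) (c : ℤ) (u v : ℤ) : hv d (C c) u v = c * v ^ d := by
  rw [hv, Finset.sum_range_succ', Finset.sum_eq_zero]
  · simp
  · intro i _
    rw [coeff_C_succ]
    ring

theorem hv_X_pow (d : ℕ) (u v : ℤ) : hv d (X ^ d) u v = u ^ d := by
  rw [hv, Finset.sum_range_succ, Finset.sum_eq_zero]
  · simp
  · intro i hi
    rw [mem_range] at hi
    rw [coeff_X_pow, if_neg (by omega)]
    ring

theorem hv_pow {a : ℕ} {P : ℤ[X]} (hP : P.natDegree ≤ a) (u v : ℤ) (k : ℕ) :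
    hv (k * a) (P ^ k) u v = hv a P u v ^ k := by
  induction k with
  | zero =>
    rw [pow_zero, pow_zero, Nat.zero_mul]
    have := hv_C 0 1 u v
    simpa using this
  | succ k ih =>
    have h1 : (k + 1) * a = k * a + a := by ring
    have h2 : (P ^ k).natDegree ≤ k * a := by
      rw [natDegree_pow]
      exact Nat.mul_le_mul_left _ hP
    rw [h1, pow_succ, pow_succ, hv_mul h2 hP, ih]

theorem hv_up {a b : ℕ} {P : ℤ[X]} (hP : P.natDegree ≤ a) (u v : ℤ) :
    hv (a + b) P u v = v ^ b * hv a P u v := by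
  have h1 := hv_mul (b := b) hP (R := C 1) (by rw [natDegree_C]; omega) u v
  rw [hv_C, C_1, mul_one, one_mul] at h1
  rw [h1]
  ring

theorem natAbs_hv_le {d : ℕ} {P : ℤ[X]} (hP : P.natDegree ≤ d) {u v : ℤ} {T : ℕ}
    (hu : u.natAbs ≤ T) (hv' : v.natAbs ≤ T) : (hv d P u v).natAbs ≤ l1 P * T ^ d := by
  rw [l1_eq P (n := d + 1) (by omega), hv, Finset.sum_mul]
  have h : ∀ (s : Finset ℕ) (f : ℕ → ℤ), (∑ i ∈ s, f i).natAbs ≤ ∑ i ∈ s, (f i).natAbs := by
    intro s f
    classical
    induction s using Finset.induction_on with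
    | empty => simp
    | insert a s ha ih =>
      rw [Finset.sum_insert ha, Finset.sum_insert ha]
      exact (Int.natAbs_add_le _ _).trans (Nat.add_le_add_left ih _)
  refine (h _ _).trans (Finset.sum_le_sum fun i hi => ?_)
  rw [mem_range] at hi
  rw [Int.natAbs_mul, Int.natAbs_mul, Int.natAbs_pow, Int.natAbs_pow, mul_assoc]
  refine Nat.mul_le_mul_left _ ?_
  calc u.natAbs ^ i * v.natAbs ^ (d - i) ≤ T ^ i * T ^ (d - i) :=
        Nat.mul_le_mul (Nat.pow_le_pow_left hu i) (Nat.pow_le_pow_left hv' _)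
    _ = T ^ d := by
        rw [← pow_add]
        congr 1
        omega

theorem hv_reflect {d : ℕ} (P : ℤ[X]) (u v : ℤ) : hv d (reflect d P) u v = hv d P v u := by
  rw [hv, hv, ← Finset.sum_range_reflect]
  refine Finset.sum_congr rfl fun i hi => ?_
  rw [mem_range] at hi
  rw [coeff_reflect, revAt_le (by omega)]
  have h1 : d + 1 - 1 - i = d - i := by omega
  have h2 : d - (d - i) = i := by omega
  rw [h1, h2]
  ring

theorem hv_comp {d : ℕ} {P : ℤ[X]} (hP : P.natDegree ≤ d) (k u : ℤ) {v : ℤ} (hv0 : v ≠ 0) :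
    hv d (P.comp (X + C k)) u v = hv d P (u + k * v) v := by
  have hd : (P.comp (X + C k)).natDegree ≤ d := by
    rw [natDegree_comp, natDegree_X_add_C, mul_one]
    exact hP
  have hv0' : (v : ℚ) ≠ 0 := by exact_mod_cast hv0
  have h1 : ((hv d (P.comp (X + C k)) u v : ℤ) : ℚ) = ((hv d P (u + k * v) v : ℤ) : ℚ) := by
    rw [hv_cast hd u hv0, hv_cast hP _ hv0, Polynomial.map_comp, eval_comp]
    congr 2
    simp only [Polynomial.map_add, Polynomial.map_X, Polynomial.map_C, eval_add, eval_X, eval_C]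
    push_cast
    field_simp
    simp
  exact_mod_cast h1

theorem hv_scaleRoots {d : ℕ} {P : ℤ[X]} (hP : P.natDegree = d) (a u v : ℤ) :
    hv d (scaleRoots P a) (a * u) v = a ^ d * hv d P u v := by
  rw [hv, hv, Finset.mul_sum]
  refine Finset.sum_congr rfl fun i hi => ?_
  rw [mem_range] at hi
  rw [coeff_scaleRoots, hP, mul_pow]
  have h1 : a ^ d = a ^ (d - i) * a ^ i := by
    rw [← pow_add]
    congr 1
    omega
  rw [h1]
  ring

theorem hv_normalization {d : ℕ} {P : ℤ[X]} (hd : 0 < d) (hP : P.natDegree = d) (u v : ℤ) :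
    hv d (integralNormalization P) (P.leadingCoeff * u) v = P.leadingCoeff ^ (d - 1) * hv d P u v := by
  have hP0 : P ≠ 0 := by
    rintro rfl
    rw [natDegree_zero] at hP
    omega
  have ha : P.leadingCoeff ≠ 0 := leadingCoeff_ne_zero.mpr hP0
  apply mul_left_cancel₀ ha
  have h1 : C P.leadingCoeff * integralNormalization P = scaleRoots P P.leadingCoeff := by
    rw [mul_comm]
    exact integralNormalization_mul_C_leadingCoeff P
  rw [← hv_C_mul, h1, hv_scaleRoots hP, ← mul_assoc, ← pow_succ']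
  congr 2
  omega

end Pool.Agent.Helper4.RC
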