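import Mathlib
import Pool.Agent.Helper4.RC.Hv

/-!
# Coprime binary forms
-/

set_option autoImplicit false

namespace Pool.Agent.Helper4.RC

open Polynomial Finset
open Pool.Agent.Helper4.PC (l1 l1_eq)

theorem ι_apply (n : ℤ) : ι n = (n : ℚ) := rfl

/-- clearing denominators -/
theorem clear (P : ℚ[X]) : ∃ (D : ℤ) (Q : ℤ[X]), D ≠ 0 ∧ Q.map ι = C (D : ℚ) * P := by
  obtain ⟨b, hb0, hb⟩ := IsLocalization.integerNormalization_spec (nonZeroDivisors ℤ) P
  refine ⟨b, IsLocalization.integerNormalization (nonZeroDivisors ℤ) P,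
    nonZeroDivisors.ne_zero hb0, ?_⟩
  have h1 : algebraMap ℤ ℚ = ι := rfl
  rw [h1] at hb
  rw [hb]
  ext i
  simp

theorem map_inj {P R : ℤ[X]} (h : P.map ι = R.map ι) : P = R :=
  Polynomial.map_injective ι Int.cast_injective h

theorem natDegree_ι (P : ℤ[X]) : (P.map ι).natDegree = P.natDegree :=
  natDegree_map_eq_of_injective Int.cast_injective P

/-- a relation over the integers -/
theorem bez {P W : ℤ[X]} (h : IsCoprime (P.map ι) (W.map ι)) :
    ∃ (U V : ℤ[X]) (R : ℤ), R ≠ 0 ∧ U * P + V * W = C R := by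
  obtain ⟨a, b, hab⟩ := h
  obtain ⟨D, U, hD, hU⟩ := clear a
  obtain ⟨E, V, hE, hV⟩ := clear b
  refine ⟨C E * U, C D * V, D * E, mul_ne_zero hD hE, ?_⟩
  apply map_inj
  simp only [Polynomial.map_add, Polynomial.map_mul, Polynomial.map_C, hU, hV, ι_apply,
    C_mul]
  linear_combination (C (D : ℚ) * C (E : ℚ)) * hab

theorem coprime_reflect {d : ℕ} {P W : ℚ[X]} (hP : P.natDegree = d) (hP0 : P ≠ 0)
    (hW : W.natDegree ≤ d) (h : IsCoprime P W) : IsCoprime (reflect d P) (reflect d W) := by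
  obtain ⟨a, b, hab⟩ := h
  obtain ⟨s, hs⟩ : ∃ s, s = max a.natDegree b.natDegree := ⟨_, rfl⟩
  have h1 : reflect s a * reflect d P + reflect s b * reflect d W = X ^ (s + d) := by
    rw [← reflect_mul a P (by omega) hP.le, ← reflect_mul b W (by omega) hW, ← reflect_add, hab,
      reflect_one]
  have h2 : IsCoprime (reflect d P) (X ^ (s + d)) := by
    refine IsCoprime.pow_right (IsCoprime.symm ?_)
    rw [irreducible_X.coprime_iff_not_dvd, X_dvd_iff, coeff_reflect, revAt_zero, ← hP]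
    exact leadingCoeff_ne_zero.mpr hP0
  obtain ⟨c, e, hce⟩ := h2
  refine ⟨c + e * reflect s a, e * reflect s b, ?_⟩
  rw [← hce, ← h1]
  ring

theorem reflect_ι {P : ℤ[X]} {d : ℕ} : (reflect d P).map ι = reflect d (P.map ι) :=
  (reflect_map _ _ _).symm

theorem natDegree_reflect_le' {P : ℤ[X]} {d : ℕ} (hP : P.natDegree ≤ d) :
    (reflect d P).natDegree ≤ d := by
  rw [natDegree_le_iff_coeff_eq_zero]
  intro N hN
  rw [coeff_reflect]
  have h1 : revAt d N = N := by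
    rw [← revAtFun_eq, revAtFun, if_neg (by omega)]
  rw [h1]
  exact coeff_eq_zero_of_natDegree_lt (by omega)

theorem natAbs_add_mul (a b c d : ℤ) {p q r s : ℕ} (ha : a.natAbs ≤ p) (hb : b.natAbs ≤ q)
    (hc : c.natAbs ≤ r) (hd : d.natAbs ≤ s) : (a * b + c * d).natAbs ≤ p * q + r * s := by
  refine (Int.natAbs_add_le _ _).trans (Nat.add_le_add ?_ ?_)
  · rw [Int.natAbs_mul]
    exact Nat.mul_le_mul ha hb
  · rw [Int.natAbs_mul]
    exact Nat.mul_le_mul hc hd

/-- half of the size estimate -/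
theorem half {d : ℕ} {P W : ℤ[X]} (hP : P.natDegree ≤ d) (hW : W.natDegree ≤ d)
    (h : IsCoprime (P.map ι) (W.map ι)) : ∃ C₀ : ℕ, ∀ (u v : ℤ) (N : ℕ), 1 ≤ N → u.natAbs ≤ N →
      v.natAbs = N → N ^ d ≤ C₀ * ((hv d P u v).natAbs + (hv d W u v).natAbs) := by
  obtain ⟨U, V, R, hR, hUV⟩ := bez h
  obtain ⟨s, hs⟩ : ∃ s, s = max U.natDegree V.natDegree := ⟨_, rfl⟩
  refine ⟨max (l1 U) (l1 V), fun u v N hN1 hu hv' => ?_⟩
  have h1 : hv (s + d) (C R) u v = hv s U u v * hv d P u v + hv s V u v * hv d W u v := by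
    rw [← hv_mul (by omega) hP, ← hv_mul (by omega) hW, ← hv_add, hUV]
  rw [hv_C] at h1
  have h2 : (R * v ^ (s + d)).natAbs ≤ (l1 U * N ^ s) * (hv d P u v).natAbs +
      (l1 V * N ^ s) * (hv d W u v).natAbs := by
    rw [h1]
    exact natAbs_add_mul _ _ _ _ (natAbs_hv_le (by omega) hu hv'.le) le_rfl
      (natAbs_hv_le (by omega) hu hv'.le) le_rfl
  have h3 : N ^ (s + d) ≤ (R * v ^ (s + d)).natAbs := by
    rw [Int.natAbs_mul, Int.natAbs_pow, hv']
    exact Nat.le_mul_of_pos_left _ (Int.natAbs_pos.mpr hR)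
  have h4 : N ^ s * N ^ d ≤ N ^ s * (max (l1 U) (l1 V) *
      ((hv d P u v).natAbs + (hv d W u v).natAbs)) := by
    rw [← pow_add]
    refine h3.trans (h2.trans ?_)
    calc _ ≤ (max (l1 U) (l1 V) * N ^ s) * (hv d P u v).natAbs +
          (max (l1 U) (l1 V) * N ^ s) * (hv d W u v).natAbs :=
          Nat.add_le_add (Nat.mul_le_mul_right _ (Nat.mul_le_mul_right _ (le_max_left _ _)))
            (Nat.mul_le_mul_right _ (Nat.mul_le_mul_right _ (le_max_right _ _)))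
      _ = _ := by ring
  exact Nat.le_of_mul_le_mul_left h4 (by positivity)

/-- **The size of the values of two coprime forms.** -/
theorem size {d : ℕ} (hd : 1 ≤ d) {P W : ℤ[X]} (hP : P.natDegree = d) (hW : W.natDegree ≤ d)
    (h : IsCoprime (P.map ι) (W.map ι)) : ∃ C₀ : ℕ, ∀ u v : ℤ,
      (max u.natAbs v.natAbs) ^ d ≤ C₀ * ((hv d P u v).natAbs + (hv d W u v).natAbs) := by
  obtain ⟨C₁, h1⟩ := half hP.le hW h
  have hP0 : P.map ι ≠ 0 := by
    intro h0
    have := natDegree_ι P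
    rw [h0, natDegree_zero] at this
    omega
  have h2 : IsCoprime ((reflect d P).map ι) ((reflect d W).map ι) := by
    rw [reflect_ι, reflect_ι]
    exact coprime_reflect (by rw [natDegree_ι]; exact hP) hP0 (by rw [natDegree_ι]; exact hW) h
  obtain ⟨C₂, h3⟩ := half (natDegree_reflect_le' hP.le) (natDegree_reflect_le' hW) h2
  refine ⟨max C₁ C₂, fun u v => ?_⟩
  rcases Nat.eq_zero_or_pos (max u.natAbs v.natAbs) with h0 | h0
  · rw [h0, zero_pow (by omega)]
    exact Nat.zero_le _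
  rcases le_total u.natAbs v.natAbs with h4 | h4
  · refine (h1 u v _ h0 (le_max_left _ _) (by omega)).trans ?_
    exact Nat.mul_le_mul_right _ (le_max_left _ _)
  · have h5 := h3 v u (max u.natAbs v.natAbs) h0 (le_max_right _ _) (by omega)
    rw [hv_reflect, hv_reflect] at h5
    exact h5.trans (Nat.mul_le_mul_right _ (le_max_right _ _))

/-- two coprime forms with bounded values -/
theorem bounded {a b : ℕ} (ha : 1 ≤ a) (hb : 1 ≤ b) {P W : ℤ[X]} (hP : P.natDegree = a)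
    (hW : W.natDegree = b) (h : IsCoprime (P.map ι) (W.map ι)) (B : ℕ) : ∃ T : ℕ, ∀ u v : ℤ,
      (hv a P u v).natAbs ≤ B → (hv b W u v).natAbs ≤ B → max u.natAbs v.natAbs ≤ T := by
  have h1 : (P ^ b).natDegree = b * a := by rw [natDegree_pow, hP]
  have h2 : (W ^ a).natDegree = b * a := by rw [natDegree_pow, hW, mul_comm]
  have hab : 1 ≤ b * a := Nat.mul_pos hb ha
  obtain ⟨C₀, h3⟩ := size hab h1 h2.le (by
    rw [Polynomial.map_pow, Polynomial.map_pow]
    exact IsCoprime.pow h)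
  refine ⟨C₀ * (B ^ b + B ^ a), fun u v k1 k2 => ?_⟩
  have h4 := h3 u v
  have h5 : hv (b * a) (P ^ b) u v = hv a P u v ^ b := hv_pow hP.le u v b
  have h6 : hv (b * a) (W ^ a) u v = hv b W u v ^ a := by
    rw [mul_comm b a]
    exact hv_pow hW.le u v a
  rw [h5, h6, Int.natAbs_pow, Int.natAbs_pow] at h4
  refine (Nat.le_self_pow (by omega) _).trans (h4.trans (Nat.mul_le_mul_left _ ?_))
  exact Nat.add_le_add (Nat.pow_le_pow_left k1 _) (Nat.pow_le_pow_left k2 _)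

/-- common divisors of the values of two coprime forms at coprime integers -/
theorem common {d : ℕ} (hd : 1 ≤ d) {P W : ℤ[X]} (hP : P.natDegree = d) (hW : W.natDegree ≤ d)
    (h : IsCoprime (P.map ι) (W.map ι)) : ∃ R : ℤ, R ≠ 0 ∧ ∀ u v w : ℤ, IsCoprime u v →
      w ∣ hv d P u v → w ∣ hv d W u v → w ∣ R := by
  have key : ∀ {P W : ℤ[X]}, P.natDegree ≤ d → W.natDegree ≤ d → IsCoprime (P.map ι) (W.map ι) →
      ∃ (R : ℤ) (m : ℕ), R ≠ 0 ∧ ∀ u v w : ℤ, w ∣ hv d P u v → w ∣ hv d W u v → w ∣ R * v ^ m := by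
    intro P W hP hW h
    obtain ⟨U, V, R, hR, hUV⟩ := bez h
    obtain ⟨s, hs⟩ : ∃ s, s = max U.natDegree V.natDegree := ⟨_, rfl⟩
    refine ⟨R, s + d, hR, fun u v w k1 k2 => ?_⟩
    have h1 : hv (s + d) (C R) u v = hv s U u v * hv d P u v + hv s V u v * hv d W u v := by
      rw [← hv_mul (by omega) hP, ← hv_mul (by omega) hW, ← hv_add, hUV]
    rw [hv_C] at h1
    rw [h1]
    exact dvd_add (Dvd.dvd.mul_left k1 _) (Dvd.dvd.mul_left k2 _)
  have hP0 : P.map ι ≠ 0 := by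
    intro h0
    have := natDegree_ι P
    rw [h0, natDegree_zero] at this
    omega
  have h2 : IsCoprime ((reflect d P).map ι) ((reflect d W).map ι) := by
    rw [reflect_ι, reflect_ι]
    exact coprime_reflect (by rw [natDegree_ι]; exact hP) hP0 (by rw [natDegree_ι]; exact hW) h
  obtain ⟨R₁, m₁, hR₁, k1⟩ := key hP.le hW h
  obtain ⟨R₂, m₂, hR₂, k2⟩ := key (natDegree_reflect_le' hP.le) (natDegree_reflect_le' hW) h2
  refine ⟨R₁ * R₂, mul_ne_zero hR₁ hR₂, fun u v w huv w1 w2 => ?_⟩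
  have h3 := k1 u v w w1 w2
  have h4 := k2 v u w (by rw [hv_reflect]; exact w1) (by rw [hv_reflect]; exact w2)
  obtain ⟨a, b, hab⟩ : IsCoprime (u ^ m₂) (v ^ m₁) := IsCoprime.pow huv
  have h5 : R₁ * R₂ = (R₁ * a) * (R₂ * u ^ m₂) + (R₂ * b) * (R₁ * v ^ m₁) := by
    linear_combination (-R₁ * R₂) * hab
  rw [h5]
  exact dvd_add (Dvd.dvd.mul_left h4 _) (Dvd.dvd.mul_left h3 _)

/-- a common factor of two integer polynomials which are not coprime over the rational numbers -/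
theorem common_factor {P W : ℤ[X]} (hP : P ≠ 0) (h : ¬ IsCoprime (P.map ι) (W.map ι)) :
    ∃ (E A B : ℤ[X]) (c : ℤ), c ≠ 0 ∧ 1 ≤ E.natDegree ∧ E * A = C c * P ∧ E * B = C c * W := by
  classical
  have hP' : P.map ι ≠ 0 := (Polynomial.map_ne_zero_iff (f := ι) Int.cast_injective).mpr hP
  obtain ⟨g, hg⟩ : ∃ g, g = EuclideanDomain.gcd (P.map ι) (W.map ι) := ⟨_, rfl⟩
  obtain ⟨a, ha⟩ : g ∣ P.map ι := by rw [hg]; exact EuclideanDomain.gcd_dvd_left _ _
  obtain ⟨b, hb⟩ : g ∣ W.map ι := by rw [hg]; exact EuclideanDomain.gcd_dvd_right _ _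
  have hgu : ¬ IsUnit g := by
    rw [hg, EuclideanDomain.gcd_isUnit_iff]
    exact h
  have hg0 : g ≠ 0 := by
    rintro rfl
    rw [zero_mul] at ha
    exact hP' ha
  have hgd : 1 ≤ g.natDegree := by
    by_contra hcon
    apply hgu
    rw [eq_C_of_natDegree_eq_zero (by omega : g.natDegree = 0)]
    rw [isUnit_C, isUnit_iff_ne_zero]
    intro h0
    apply hg0
    rw [eq_C_of_natDegree_eq_zero (by omega : g.natDegree = 0), h0, C_0]
  obtain ⟨D₁, E, hD₁, hE⟩ := clear g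
  obtain ⟨D₂, A, hD₂, hA⟩ := clear a
  obtain ⟨D₃, B, hD₃, hB⟩ := clear b
  refine ⟨E, C D₃ * A, C D₂ * B, D₁ * D₂ * D₃, mul_ne_zero (mul_ne_zero hD₁ hD₂) hD₃, ?_, ?_, ?_⟩
  · rw [← natDegree_ι E, hE, natDegree_C_mul (by exact_mod_cast hD₁)]
    exact hgd
  · apply map_inj
    simp only [Polynomial.map_mul, Polynomial.map_C, hE, hA, ha, ι_apply, C_mul]
    ring
  · apply map_inj
    simp only [Polynomial.map_mul, Polynomial.map_C, hE, hB, hb, ι_apply, C_mul]
    ring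

end Pool.Agent.Helper4.RC
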