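import Mathlib
import Pool.Agent.Helper4.PC.Norm

/-!
# The differential operator `Θ d/dX` and its action on multiples of `U`, where `Θ U' = λ U`
-/

set_option autoImplicit false

namespace Pool.Agent.Helper4.RC

open Polynomial Finset
open Pool.Agent.Helper4.PC (l1 l1_add_le l1_mul_le l1_derivative_le)

section general

variable {R : Type*} [CommRing R]

/-- `Θ d/dX` -/
noncomputable def th (Θ P : R[X]) : R[X] := Θ * derivative P

/-- the action on the cofactor of `U` -/
noncomputable def st (Θ L A : R[X]) : R[X] := Θ * derivative A + L * A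

theorem st_mul {Θ L U : R[X]} (hU : Θ * derivative U = L * U) (A : R[X]) :
    st Θ L A * U = th Θ (A * U) := by
  rw [st, th, derivative_mul]
  linear_combination (-A) * hU

theorem st_iter {Θ L U : R[X]} (hU : Θ * derivative U = L * U) (A : R[X]) (j : ℕ) :
    ((st Θ L)^[j] A) * U = (th Θ)^[j] (A * U) := by
  induction j with
  | zero => rfl
  | succ j ih => rw [Function.iterate_succ_apply', Function.iterate_succ_apply', st_mul hU, ih]

theorem th_sub (Θ P Q : R[X]) : th Θ (P - Q) = th Θ P - th Θ Q := by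
  rw [th, th, th, derivative_sub]; ring

theorem th_add (Θ P Q : R[X]) : th Θ (P + Q) = th Θ P + th Θ Q := by
  rw [th, th, th, derivative_add]; ring

theorem th_C_mul (Θ P : R[X]) (c : R) : th Θ (C c * P) = C c * th Θ P := by
  rw [th, th, derivative_C_mul]; ring

theorem th_iter_sub (Θ P Q : R[X]) (j : ℕ) :
    (th Θ)^[j] (P - Q) = (th Θ)^[j] P - (th Θ)^[j] Q := by
  induction j with
  | zero => rfl
  | succ j ih => rw [Function.iterate_succ_apply', Function.iterate_succ_apply',
      Function.iterate_succ_apply', ih, th_sub]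

theorem th_iter_add (Θ P Q : R[X]) (j : ℕ) :
    (th Θ)^[j] (P + Q) = (th Θ)^[j] P + (th Θ)^[j] Q := by
  induction j with
  | zero => rfl
  | succ j ih => rw [Function.iterate_succ_apply', Function.iterate_succ_apply',
      Function.iterate_succ_apply', ih, th_add]

theorem th_iter_C_mul (Θ P : R[X]) (c : R) (j : ℕ) :
    (th Θ)^[j] (C c * P) = C c * (th Θ)^[j] P := by
  induction j with
  | zero => rfl
  | succ j ih => rw [Function.iterate_succ_apply', Function.iterate_succ_apply', ih, th_C_mul]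

theorem pow_dvd_th {F P : R[X]} (Θ : R[X]) {m : ℕ} (h : F ^ m ∣ P) : F ^ (m - 1) ∣ th Θ P := by
  rcases Nat.eq_zero_or_pos m with h0 | h0
  · subst h0
    simp
  · obtain ⟨m, rfl⟩ : ∃ m', m = m' + 1 := ⟨m - 1, by omega⟩
    obtain ⟨Q, rfl⟩ := h
    rw [th, derivative_mul, derivative_pow_succ]
    refine Dvd.dvd.mul_left (dvd_add ?_ ?_) _
    · exact ⟨C ((m : R) + 1) * derivative F * Q, by rw [Nat.add_sub_cancel]; ring⟩
    · exact ⟨F * derivative Q, by rw [Nat.add_sub_cancel, pow_succ]; ring⟩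

theorem pow_dvd_th_iter {F P : R[X]} (Θ : R[X]) {m : ℕ} (h : F ^ m ∣ P) (j : ℕ) :
    F ^ (m - j) ∣ (th Θ)^[j] P := by
  induction j with
  | zero => simpa using h
  | succ j ih =>
    rw [Function.iterate_succ_apply']
    have := pow_dvd_th Θ ih
    rwa [Nat.sub_sub] at this

theorem st_map {S : Type*} [CommRing S] (φ : R →+* S) (Θ L A : R[X]) (j : ℕ) :
    ((st Θ L)^[j] A).map φ = (st (Θ.map φ) (L.map φ))^[j] (A.map φ) := by
  induction j with
  | zero => rfl
  | succ j ih =>
    rw [Function.iterate_succ_apply', Function.iterate_succ_apply', ← ih, st, st, derivative_map]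
    simp only [Polynomial.map_add, Polynomial.map_mul]

theorem natDegree_st {Θ L : R[X]} {s : ℕ} (hΘ : Θ.natDegree ≤ s) (hL : L.natDegree ≤ s) (A : R[X]) :
    (st Θ L A).natDegree ≤ A.natDegree + s := by
  have a1 := natDegree_add_le (Θ * derivative A) (L * A)
  have a2 := natDegree_mul_le (p := Θ) (q := derivative A)
  have a3 := natDegree_mul_le (p := L) (q := A)
  have a4 := natDegree_derivative_le A
  rw [st]
  omega

theorem natDegree_st_iter {Θ L : R[X]} {s : ℕ} (hΘ : Θ.natDegree ≤ s) (hL : L.natDegree ≤ s)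
    (A : R[X]) (j : ℕ) : ((st Θ L)^[j] A).natDegree ≤ A.natDegree + j * s := by
  induction j with
  | zero => simp
  | succ j ih =>
    rw [Function.iterate_succ_apply']
    refine (natDegree_st hΘ hL _).trans ?_
    rw [Nat.succ_mul]
    omega

end general

section order

variable {R : Type*} [CommRing R] [IsDomain R] [CharZero R]

/-- the order of vanishing at `τ` -/
theorem th_iter_eval {Θ : R[X]} {τ : R} (hΘ : Θ.eval τ ≠ 0) (a : ℕ) :
    ∀ P : R[X], P.eval τ ≠ 0 → ((th Θ)^[a] ((X - C τ) ^ a * P)).eval τ ≠ 0 := by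
  induction a with
  | zero => intro P hP; simpa using hP
  | succ a ih =>
    intro P hP
    rw [Function.iterate_succ_apply]
    have h1 : th Θ ((X - C τ) ^ (a + 1) * P) =
        (X - C τ) ^ a * (Θ * (C ((a : R) + 1) * P + (X - C τ) * derivative P)) := by
      rw [th, derivative_mul, derivative_pow_succ, derivative_sub, derivative_X, derivative_C]
      rw [pow_succ]
      ring
    rw [h1]
    apply ih
    simp only [eval_mul, eval_add, eval_sub, eval_X, eval_C, sub_self, zero_mul, add_zero]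
    have : ((a : R) + 1) ≠ 0 := by exact_mod_cast Nat.succ_ne_zero a
    exact mul_ne_zero hΘ (mul_ne_zero this hP)

theorem order {Θ S : R[X]} {τ : R} {J : ℕ} (hΘ : Θ.eval τ ≠ 0)
    (h : ∀ j ≤ J, ((th Θ)^[j] S).eval τ = 0) : (X - C τ) ^ (J + 1) ∣ S := by
  by_cases hS : S = 0
  · rw [hS]; exact dvd_zero _
  obtain ⟨Q, hQ, hQ'⟩ := exists_eq_pow_rootMultiplicity_mul_and_not_dvd S hS τ
  have h1 : Q.eval τ ≠ 0 := by
    intro h0
    exact hQ' (dvd_iff_isRoot.mpr h0)
  have h2 := th_iter_eval hΘ (rootMultiplicity τ S) Q h1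
  rw [← hQ] at h2
  have h3 : J + 1 ≤ rootMultiplicity τ S := by
    by_contra hcon
    exact h2 (h _ (by omega))
  exact (pow_dvd_pow _ h3).trans (pow_rootMultiplicity_dvd S τ)

end order

theorem l1_st (Θ L A : ℤ[X]) : l1 (st Θ L A) ≤ (l1 Θ * A.natDegree + l1 L) * l1 A := by
  have h1 : l1 (Θ * derivative A) ≤ l1 Θ * (A.natDegree * l1 A) :=
    (l1_mul_le _ _).trans (Nat.mul_le_mul_left _ (l1_derivative_le A))
  refine (l1_add_le _ _).trans ((Nat.add_le_add h1 (l1_mul_le _ _)).trans (le_of_eq ?_))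
  ring

theorem l1_st_iter {Θ L A : ℤ[X]} {D Y : ℕ} (j : ℕ)
    (hD : ∀ i ≤ j, ((st Θ L)^[i] A).natDegree ≤ D) (hY : l1 Θ * D + l1 L ≤ Y) :
    l1 ((st Θ L)^[j] A) ≤ Y ^ j * l1 A := by
  induction j with
  | zero => simp
  | succ j ih =>
    rw [Function.iterate_succ_apply']
    refine (l1_st Θ L _).trans ?_
    have h1 := hD j (Nat.le_succ j)
    have h2 : l1 Θ * ((st Θ L)^[j] A).natDegree + l1 L ≤ Y :=
      (Nat.add_le_add_right (Nat.mul_le_mul_left _ h1) _).trans hY
    have h3 := ih fun i hi => hD i (by omega)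
    calc _ ≤ Y * (Y ^ j * l1 A) := Nat.mul_le_mul h2 h3
      _ = Y ^ (j + 1) * l1 A := by rw [pow_succ]; ring

end Pool.Agent.Helper4.RC
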