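import Mathlib
import Pool.Agent.Helper4.PC.Zero

/-!
# The zero estimate for products of powers
-/

set_option autoImplicit false

namespace Pool.Agent.Helper4.RC

open Polynomial Finset
open Pool.Agent.Helper4.PC (proportional pow_dvd_derivative)

variable {k : Type*} [Field k] [CharZero k]

/-- The zero estimate: here `Θ U' = λ U` and `Θ V' = μ V`. -/
theorem zero_estimate {F U V A B Θ L M' : k[X]} (hU' : Θ * derivative U = L * U)
    (hV' : Θ * derivative V = M' * V) (hFU : IsCoprime F U) (hFV : IsCoprime F V)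
    {n M J s : ℕ} (hA : A.natDegree < n) (hB : B.natDegree < n) (hF0 : F ≠ 0) (hU0 : U ≠ 0)
    (hV0 : V ≠ 0) (hΘ0 : Θ ≠ 0) (hdiv : F ^ (M + 1) ∣ A * U - B * V) {τ : k} (hFτ : F.eval τ ≠ 0)
    (hUτ : U.eval τ ≠ 0) (hVτ : V.eval τ ≠ 0) {c₁ c₂ : k} (hc₁ : c₁ ≠ 0)
    (hS : (X - C τ) ^ (J + 1) ∣ C c₁ * (A * U) + C c₂ * (B * V))
    (hΘs : Θ.natDegree ≤ s) (hLs : L.natDegree ≤ s) (hMs : M'.natDegree ≤ s)
    (hdeg : 2 * n + s ≤ F.natDegree * M + J + 1)
    (hbig : (∃ P, P ∣ U ∧ IsCoprime P V ∧ n ≤ P.natDegree) ∨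
      (∃ P, P ∣ V ∧ IsCoprime P U ∧ n ≤ P.natDegree)) (hM : n ≤ (M + 1) * F.natDegree) :
    A = 0 ∧ B = 0 := by
  -- if one of the polynomials vanishes, so does the other one
  have hdegM : (F ^ (M + 1)).natDegree = (M + 1) * F.natDegree := natDegree_pow _ _
  have hcase1 : A = 0 → B = 0 := by
    intro h
    rw [h, zero_mul, zero_sub, dvd_neg] at hdiv
    have h1 : F ^ (M + 1) ∣ B := (IsCoprime.pow_left hFV).dvd_of_dvd_mul_right hdiv
    by_contra hne
    have := natDegree_le_of_dvd h1 hne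
    omega
  have hcase2 : B = 0 → A = 0 := by
    intro h
    rw [h, zero_mul, sub_zero] at hdiv
    have h1 : F ^ (M + 1) ∣ A := (IsCoprime.pow_left hFU).dvd_of_dvd_mul_right hdiv
    by_contra hne
    have := natDegree_le_of_dvd h1 hne
    omega
  by_cases hA0 : A = 0
  · exact ⟨hA0, hcase1 hA0⟩
  by_cases hB0 : B = 0
  · exact ⟨hcase2 hB0, hB0⟩
  exfalso
  obtain ⟨u, hu⟩ : ∃ u, u = A * U := ⟨_, rfl⟩
  obtain ⟨v, hv⟩ : ∃ v, v = B * V := ⟨_, rfl⟩
  have hu0 : u ≠ 0 := by rw [hu]; exact mul_ne_zero hA0 hU0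
  have hv0 : v ≠ 0 := by rw [hv]; exact mul_ne_zero hB0 hV0
  obtain ⟨W, hW⟩ : ∃ W, W = u * derivative v - derivative u * v := ⟨_, rfl⟩
  rw [← hu, ← hv] at hdiv hS
  have hW1 : F ^ M ∣ W := by
    have h1 := pow_dvd_derivative hdiv
    have h2 : F ^ M ∣ u - v := (pow_dvd_pow F (Nat.le_succ M)).trans hdiv
    have h3 : W = (u - v) * derivative v - derivative (u - v) * v := by
      rw [hW, derivative_sub]; ring
    rw [h3]
    exact dvd_sub (Dvd.dvd.mul_right h2 _) (Dvd.dvd.mul_right h1 _)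
  have hW2 : (X - C τ) ^ J ∣ W := by
    have h1 := pow_dvd_derivative hS
    have h2 : (X - C τ) ^ J ∣ C c₁ * u + C c₂ * v := (pow_dvd_pow _ (Nat.le_succ J)).trans hS
    have h3 : C c₁ * W = (C c₁ * u + C c₂ * v) * derivative v -
        derivative (C c₁ * u + C c₂ * v) * v := by
      rw [hW, derivative_add, derivative_C_mul, derivative_C_mul]; ring
    have h4 : (X - C τ) ^ J ∣ C c₁ * W := by
      rw [h3]
      exact dvd_sub (Dvd.dvd.mul_right h2 _) (Dvd.dvd.mul_right h1 _)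
    have h5 : W = C c₁⁻¹ * (C c₁ * W) := by
      rw [← mul_assoc, ← C_mul, inv_mul_cancel₀ hc₁, C_1, one_mul]
    rw [h5]
    exact Dvd.dvd.mul_left h4 _
  obtain ⟨Δ, hΔ⟩ : ∃ Δ, Δ = A * (Θ * derivative B + M' * B) - (Θ * derivative A + L * A) * B :=
    ⟨_, rfl⟩
  have hWΔ : Θ * W = (U * V) * Δ := by
    rw [hW, hu, hv, hΔ, derivative_mul, derivative_mul]
    linear_combination (A * U * B) * hV' - (A * V * B) * hU'
  have hcopF : IsCoprime F (U * V) := hFU.mul_right hFV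
  have hcopτ : IsCoprime (X - C τ) (U * V) := by
    refine (Polynomial.irreducible_X_sub_C τ).coprime_iff_not_dvd.mpr ?_
    rw [dvd_iff_isRoot, IsRoot, eval_mul]
    exact mul_ne_zero hUτ hVτ
  have hFX : IsCoprime F (X - C τ) := by
    refine (IsCoprime.symm ?_)
    refine (Polynomial.irreducible_X_sub_C τ).coprime_iff_not_dvd.mpr ?_
    rw [dvd_iff_isRoot, IsRoot]
    exact hFτ
  have hd1 : F ^ M ∣ Δ := by
    have h1 : F ^ M ∣ (U * V) * Δ := by rw [← hWΔ]; exact Dvd.dvd.mul_left hW1 _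
    exact (hcopF.pow_left).dvd_of_dvd_mul_left h1
  have hd2 : (X - C τ) ^ J ∣ Δ := by
    have h1 : (X - C τ) ^ J ∣ (U * V) * Δ := by rw [← hWΔ]; exact Dvd.dvd.mul_left hW2 _
    exact (hcopτ.pow_left).dvd_of_dvd_mul_left h1
  have hd3 : F ^ M * (X - C τ) ^ J ∣ Δ := (IsCoprime.pow hFX).mul_dvd hd1 hd2
  have hn1 : 1 ≤ n := by omega
  have hΔdeg : Δ.natDegree ≤ 2 * (n - 1) + s := by
    have key : ∀ {A B L : k[X]}, A.natDegree < n → B.natDegree < n → L.natDegree ≤ s →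
        (A * (Θ * derivative B + L * B)).natDegree ≤ 2 * (n - 1) + s := by
      intro A B L hA hB hL
      have a1 := natDegree_mul_le (p := A) (q := Θ * derivative B + L * B)
      have a2 := natDegree_add_le (Θ * derivative B) (L * B)
      have a3 := natDegree_mul_le (p := Θ) (q := derivative B)
      have a4 := natDegree_mul_le (p := L) (q := B)
      have a5 := natDegree_derivative_le B
      omega
    rw [hΔ, mul_comm (Θ * derivative A + L * A) B]
    exact (natDegree_sub_le _ _).trans (max_le (key hA hB hMs) (key hB hA hLs))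
  have hΔ0 : Δ = 0 := by
    by_contra hne
    have h1 := natDegree_le_of_dvd hd3 hne
    rw [natDegree_mul (pow_ne_zero _ hF0) (pow_ne_zero _ (X_sub_C_ne_zero τ)), natDegree_pow,
      natDegree_pow, natDegree_X_sub_C, mul_one] at h1
    have h2 : F.natDegree * M = M * F.natDegree := mul_comm _ _
    omega
  have hW0 : W = 0 := by
    have h1 : Θ * W = 0 := by rw [hWΔ, hΔ0, mul_zero]
    exact (mul_eq_zero.mp h1).resolve_left hΘ0
  rw [hW, sub_eq_zero] at hW0
  obtain ⟨c, hc, hcu⟩ := proportional hu0 hv0 hW0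
  rw [hu, hv] at hcu
  rcases hbig with ⟨P, hPU, hPV, hPn⟩ | ⟨P, hPV, hPU, hPn⟩
  · have h2 : P ∣ B * V := by
      rw [hcu]
      exact Dvd.dvd.mul_left (Dvd.dvd.mul_left hPU _) _
    have h3 : P ∣ B := hPV.dvd_of_dvd_mul_right h2
    have h4 := natDegree_le_of_dvd h3 hB0
    omega
  · have h2 : P ∣ A * U := by
      have h3 : A * U = C c⁻¹ * (B * V) := by
        rw [hcu, ← mul_assoc, ← C_mul, inv_mul_cancel₀ hc, C_1, one_mul]
      rw [h3]
      exact Dvd.dvd.mul_left (Dvd.dvd.mul_left hPV _) _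
    have h3 : P ∣ A := hPU.dvd_of_dvd_mul_right h2
    have h4 := natDegree_le_of_dvd h3 hA0
    omega

end Pool.Agent.Helper4.RC
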