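import Mathlib
import Pool.Agent.Helper4.PC.Siegel
import Pool.Agent.Helper4.RC.Bez
import Pool.Agent.Helper4.RC.Zero
import Pool.Agent.Helper4.RC.Oper
import Pool.Agent.Helper4.RC.Arith

/-!
# The main estimate for binary forms
-/

set_option autoImplicit false

namespace Pool.Agent.Helper4.RC

open Polynomial Finset
open Pool.Agent.Helper4.PC (l1 l1_le_of_coeff l1_X_pow_mul l1_pow_le Rep rep_poly siegel)

/-- divisibility of the values by the power of a value -/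
theorem hv_dvd {F P : ℤ[X]} (hF : F.Monic) {D k : ℕ} (hP : P.natDegree ≤ D) (h : F ^ k ∣ P)
    (u v : ℤ) : hv F.natDegree F u v ^ k ∣ hv D P u v := by
  obtain ⟨S, rfl⟩ := h
  by_cases hS : S = 0
  · rw [hS, mul_zero]
    have : hv D 0 u v = 0 := by simp [hv]
    rw [this]
    exact dvd_zero _
  · have h1 : (F ^ k * S).natDegree = k * F.natDegree + S.natDegree := by
      rw [(hF.pow k).natDegree_mul' hS, natDegree_pow]
    obtain ⟨e, he⟩ : ∃ e, D = k * F.natDegree + e := ⟨D - k * F.natDegree, by omega⟩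
    rw [he, hv_mul (by rw [natDegree_pow]) (by omega : S.natDegree ≤ e), hv_pow le_rfl]
    exact Dvd.intro _ rfl

/-- the size of the values of the iterates -/
theorem value_iter {Θ L A : ℤ[X]} {n J j K Q t B p : ℕ} {u v : ℤ} (hA : A.natDegree < n)
    (hΘs : Θ.natDegree ≤ 4 * K) (hLs : L.natDegree ≤ 4 * K) (hΘQ : l1 Θ ≤ Q ^ 4)
    (hLQ : l1 L ≤ Q ^ 4 * (2 * p * K)) (hj : j ≤ J) (hQ : 1 ≤ Q)
    (hu : u.natAbs ≤ Q * t) (hv' : v.natAbs ≤ Q * t) (hB : ∀ i, (A.coeff i).natAbs ≤ B)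
    (hn : 1 ≤ n) :
    (hv (n + J * (4 * K)) ((st Θ L)^[j] A) u v).natAbs ≤
      ((Q ^ 4 * ((n + J * (4 * K)) + 2 * p * K)) ^ J * (n * B)) * (Q * t) ^ (n + J * (4 * K)) := by
  have hdeg : ∀ i ≤ j, ((st Θ L)^[i] A).natDegree ≤ n + J * (4 * K) := by
    intro i hi
    refine (natDegree_st_iter hΘs hLs A i).trans ?_
    have : i * (4 * K) ≤ J * (4 * K) := Nat.mul_le_mul_right _ (by omega)
    omega
  have h1 := natAbs_hv_le (hdeg j le_rfl) hu hv'
  refine h1.trans (Nat.mul_le_mul_right _ ?_)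
  have h2 := l1_st_iter (Θ := Θ) (L := L) (A := A) (D := n + J * (4 * K))
    (Y := Q ^ 4 * ((n + J * (4 * K)) + 2 * p * K)) j hdeg (by
      rw [Nat.mul_add (Q ^ 4) (n + J * (4 * K)) (2 * p * K)]
      exact Nat.add_le_add (Nat.mul_le_mul_right _ hΘQ) hLQ)
  refine h2.trans (Nat.mul_le_mul (Nat.pow_le_pow_right ?_ hj) ?_)
  · exact Nat.mul_pos (by positivity) (by omega)
  · have h3 := l1_le_of_coeff (P := A) (K := n - 1) (B := B) (by omega) hB
    have h4 : n - 1 + 1 = n := by omega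
    rwa [h4] at h3

theorem core {K w p t Q DU : ℕ} {F Θ L M' U V : ℤ[X]} {u v x α β m σ ρ : ℤ} (hK : 1 ≤ K)
    (hFm : F.Monic) (hd1 : 1 ≤ F.natDegree) (hdK : F.natDegree ≤ K)
    (hU' : Θ * derivative U = L * U) (hV' : Θ * derivative V = M' * V)
    (hΘs : Θ.natDegree ≤ 4 * K) (hLs : L.natDegree ≤ 4 * K) (hMs : M'.natDegree ≤ 4 * K)
    (hΘQ : l1 Θ ≤ Q ^ 4) (hLQ : l1 L ≤ Q ^ 4 * (2 * p * K)) (hMQ : l1 M' ≤ Q ^ 4 * (2 * p * K))
    (hUD : U.natDegree ≤ DU) (hVD : V.natDegree ≤ DU) (hDU : DU ≤ 2 * K * p)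
    (hUQ : l1 U ≤ Q ^ (2 * p)) (hVQ : l1 V ≤ Q ^ (2 * p))
    (hFU : IsCoprime (F.map ι) (U.map ι)) (hFV : IsCoprime (F.map ι) (V.map ι))
    (hbig : (∃ P : ℤ[X], P ∣ U ∧ IsCoprime (P.map ι) (V.map ι) ∧
        (32 * K + 1) * F.natDegree * w ≤ P.natDegree) ∨
      (∃ P : ℤ[X], P ∣ V ∧ IsCoprime (P.map ι) (U.map ι) ∧
        (32 * K + 1) * F.natDegree * w ≤ P.natDegree))
    (hFQ : 1 + l1 F ≤ Q) (hx : x ∣ hv F.natDegree F u v) (hx0 : x ≠ 0)
    (hFv : hv F.natDegree F u v ≠ 0) (hv0 : v ≠ 0) (hΘv : hv (4 * K) Θ u v ≠ 0)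
    (hUv : hv DU U u v = m * α) (hVv : hv DU V u v = m * β) (hm0 : m ≠ 0)
    (hmQ : m.natAbs ≤ Q ^ (2 * p)) (hα0 : α ≠ 0) (hβ0 : β ≠ 0)
    (heq : α = σ * β + ρ * x ^ p) (hσ : σ.natAbs = 1) (hxβ : IsCoprime x β)
    (hxt : t ^ F.natDegree ≤ Q * x.natAbs) (huQ : u.natAbs ≤ Q * t) (hvQ : v.natAbs ≤ Q * t)
    (hw : 9 * K ≤ w) (hwp : 64 * K * w ≤ p) (hpw : p ≤ 264 * K ^ 3 * w)
    (ht : 2 ≤ t) (h1 : Q ^ (36000 * K ^ 5) ≤ t) (h2 : (600 * K ^ 4 * w) ^ (40 * K) ≤ t) :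
    False := by
  obtain ⟨d, hd⟩ : ∃ d, d = F.natDegree := ⟨_, rfl⟩
  obtain ⟨n, hn⟩ : ∃ n, n = (32 * K + 1) * d * w := ⟨_, rfl⟩
  obtain ⟨J, hJ⟩ : ∃ J, J = 2 * d * w + 5 * K := ⟨_, rfl⟩
  obtain ⟨M, hM⟩ : ∃ M, M = 64 * K * w := ⟨_, rfl⟩
  obtain ⟨D, hD⟩ : ∃ D, D = n + J * (4 * K) := ⟨_, rfl⟩
  have hd1' : 1 ≤ d := by omega
  have hdK' : d ≤ K := by omega
  have hw1 : 1 ≤ w := by omega
  have hQ1 : 1 ≤ Q := by omega
  have hn1 : 1 ≤ n := by
    rw [hn]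
    exact Nat.mul_pos (Nat.mul_pos (by omega) (by omega)) (by omega)
  have hJle : J ≤ 3 * (K * w) := by rw [hJ]; exact ar_J hd1' hdK' hw
  have hnle : n ≤ 33 * (K ^ 2 * w) := by rw [hn]; exact ar_n hd1' hdK'
  have hKw : 1 ≤ K * w := Nat.mul_pos (by omega) (by omega)
  have hMKw : M = 64 * (K * w) := by rw [hM]; ring
  have hM1 : 1 ≤ M := by omega
  have hMd : M * d = 64 * (K * d * w) := by rw [hM]; ring
  have hnd : 2 * n = 64 * (K * d * w) + 2 * (d * w) := by rw [hn]; ring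
  have hdw : 1 ≤ d * w := Nat.mul_pos (by omega) (by omega)
  -- Siegel's lemma
  obtain ⟨S, hS⟩ : ∃ S, S = Q ^ (n + (2 * K + 2) * p) := ⟨_, rfl⟩
  have hrep : ∀ U : ℤ[X], U.natDegree ≤ DU → l1 U ≤ Q ^ (2 * p) → ∀ i < n,
      Rep F M (X ^ i * U) S := by
    intro U hUD hUQ i hi
    have h3 : (X ^ i * U).natDegree ≤ n + 2 * K * p := by
      refine natDegree_mul_le.trans ?_
      rw [natDegree_X_pow]
      omega
    refine (rep_poly hFm (by omega) hM1 (X ^ i * U) h3).mono ?_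
    rw [l1_X_pow_mul, hS]
    have h5 : (1 + l1 F) ^ (n + 2 * K * p) ≤ Q ^ (n + 2 * K * p) := Nat.pow_le_pow_left hFQ _
    calc l1 U * (1 + l1 F) ^ (n + 2 * K * p) ≤ Q ^ (2 * p) * Q ^ (n + 2 * K * p) :=
          Nat.mul_le_mul hUQ h5
      _ = Q ^ (n + (2 * K + 2) * p) := by rw [← pow_add]; congr 1; ring
  obtain ⟨A, B, hAB, hA, hB, hdiv, hAc, hBc⟩ := siegel (F := F) (P := U) (Q := V) (m := M)
    (n := n) (S := S) (e := 32 * K) (by omega) hM1 (by rw [← hd, hMd, hnd]; omega)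
    (by
      rw [← hd, hMd, hnd]
      have : 64 * (K * d * w) + 2 * (d * w) - 64 * (K * d * w) = 2 * (d * w) := by omega
      rw [this]
      ring)
    (by rw [hS]; exact Nat.one_le_pow _ _ (by omega)) (hrep U hUD hUQ) (hrep V hVD hVQ)
  -- degrees of the iterates
  have hAd : ∀ j ≤ J, ((st Θ L)^[j] A).natDegree ≤ D := by
    intro j hj
    refine (natDegree_st_iter hΘs hLs A j).trans ?_
    have : j * (4 * K) ≤ J * (4 * K) := Nat.mul_le_mul_right _ hj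
    omega
  have hBd : ∀ j ≤ J, ((st Θ M')^[j] B).natDegree ≤ D := by
    intro j hj
    refine (natDegree_st_iter hΘs hMs B j).trans ?_
    have : j * (4 * K) ≤ J * (4 * K) := Nat.mul_le_mul_right _ hj
    omega
  -- the numbers `ξ j`
  obtain ⟨ξ, hξ⟩ : ∃ ξ : ℕ → ℤ, ∀ j, ξ j = m * (σ * hv D ((st Θ L)^[j] A) u v -
      hv D ((st Θ M')^[j] B) u v) := ⟨_, fun _ => rfl⟩
  -- values over the rational numbers
  obtain ⟨τ, hτ⟩ : ∃ τ : ℚ, τ = (u : ℚ) / v := ⟨_, rfl⟩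
  have hvQ0 : (v : ℚ) ≠ 0 := by exact_mod_cast hv0
  have hne : ∀ {D : ℕ} {P : ℤ[X]}, P.natDegree ≤ D → hv D P u v ≠ 0 → (P.map ι).eval τ ≠ 0 := by
    intro D P hP h0 h3
    apply h0
    have h4 := hv_cast hP u hv0
    rw [← hτ, h3, mul_zero] at h4
    exact_mod_cast h4
  have hFτ := hne le_rfl hFv
  have hΘτ := hne hΘs hΘv
  have hUτ := hne hUD (by rw [hUv]; exact mul_ne_zero hm0 hα0)
  have hVτ := hne hVD (by rw [hVv]; exact mul_ne_zero hm0 hβ0)
  have hne0 : ∀ {P : ℚ[X]}, P.eval τ ≠ 0 → P ≠ 0 := by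
    rintro P hP rfl
    exact hP eval_zero
  have hUq : (Θ.map ι) * derivative (U.map ι) = (L.map ι) * (U.map ι) := by
    rw [derivative_map, ← Polynomial.map_mul, ← Polynomial.map_mul, hU']
  have hVq : (Θ.map ι) * derivative (V.map ι) = (M'.map ι) * (V.map ι) := by
    rw [derivative_map, ← Polynomial.map_mul, ← Polynomial.map_mul, hV']
  -- not all of them vanish
  have hex : ∃ j ≤ J, ξ j ≠ 0 := by
    by_contra hcon
    push Not at hcon
    apply hAB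
    have hmapS : (X - C τ) ^ (J + 1) ∣
        C ((σ * β : ℤ) : ℚ) * (A.map ι * U.map ι) + C ((-α : ℤ) : ℚ) * (B.map ι * V.map ι) := by
      apply order (Θ := Θ.map ι) hΘτ
      intro j hj
      have h3 := hcon j hj
      rw [hξ] at h3
      rw [th_iter_add, th_iter_C_mul, th_iter_C_mul, ← st_iter hUq, ← st_iter hVq, ← st_map,
        ← st_map]
      simp only [eval_add, eval_mul, eval_C]
      have k1 := hv_cast (hAd j hj) u hv0
      have k2 := hv_cast (hBd j hj) u hv0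
      have k3 := hv_cast hUD u hv0
      have k4 := hv_cast hVD u hv0
      rw [hUv] at k3
      rw [hVv] at k4
      rw [← hτ] at k1 k2 k3 k4
      have h3' : (m : ℚ) * (σ * (hv D ((st Θ L)^[j] A) u v : ℤ) -
          (hv D ((st Θ M')^[j] B) u v : ℤ)) = 0 := by exact_mod_cast h3
      rw [k1, k2] at h3'
      push_cast at k3 k4 ⊢
      have hv1 : (v : ℚ) ^ D * (v : ℚ) ^ DU ≠ 0 := mul_ne_zero (pow_ne_zero _ hvQ0) (pow_ne_zero _ hvQ0)
      apply mul_left_cancel₀ hv1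
      rw [mul_zero]
      have e1 : (v : ℚ) ^ D * (v : ℚ) ^ DU * ((σ : ℚ) * β * ((((st Θ L)^[j] A).map ι).eval τ *
          (U.map ι).eval τ) + -(α : ℚ) * ((((st Θ M')^[j] B).map ι).eval τ * (V.map ι).eval τ)) =
          (σ : ℚ) * β * ((v : ℚ) ^ D * (((st Θ L)^[j] A).map ι).eval τ) *
            ((v : ℚ) ^ DU * (U.map ι).eval τ) - (α : ℚ) * ((v : ℚ) ^ D *
            (((st Θ M')^[j] B).map ι).eval τ) * ((v : ℚ) ^ DU * (V.map ι).eval τ) := by ring
      rw [e1, ← k3, ← k4]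
      linear_combination ((α : ℚ) * β) * h3'
    have hmapF : F.map ι ^ (M - 1 + 1) ∣ A.map ι * U.map ι - B.map ι * V.map ι := by
      have h3 := Polynomial.map_dvd ι hdiv
      rw [Nat.sub_add_cancel hM1]
      simpa only [Polynomial.map_pow, Polynomial.map_sub, Polynomial.map_mul] using h3
    have hz := zero_estimate hUq hVq hFU hFV (n := n) (M := M - 1) (J := J) (s := 4 * K)
      (A := A.map ι) (B := B.map ι) (by rw [natDegree_ι]; exact hA)
      (by rw [natDegree_ι]; exact hB) (hne0 hFτ) (hne0 hUτ) (hne0 hVτ) (hne0 hΘτ) hmapF hFτ hUτ hVτ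
      (c₁ := ((σ * β : ℤ) : ℚ)) (c₂ := ((-α : ℤ) : ℚ)) (by
        have h3 : σ * β ≠ 0 := mul_ne_zero (by rintro rfl; simp at hσ) hβ0
        exact_mod_cast h3) hmapS (by rw [natDegree_ι]; exact hΘs) (by rw [natDegree_ι]; exact hLs)
      (by rw [natDegree_ι]; exact hMs)
      (by
        rw [natDegree_ι, ← hd]
        have h3 : d * (M - 1) = M * d - d := by rw [Nat.mul_sub, mul_one, mul_comm]
        rw [h3, hMd, hJ, hnd]
        have h4 : 2 * d * w = 2 * (d * w) := by ring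
        have h5 : d ≤ K * d * w := by
          have : d * 1 ≤ d * (K * w) := Nat.mul_le_mul_left _ hKw
          have h6 : d * (K * w) = K * d * w := by ring
          omega
        omega)
      (by
        rw [hn, hd]
        rcases hbig with ⟨P, h3, h4, h5⟩ | ⟨P, h3, h4, h5⟩
        · exact Or.inl ⟨P.map ι, Polynomial.map_dvd ι h3, h4, by rw [natDegree_ι]; exact h5⟩
        · exact Or.inr ⟨P.map ι, Polynomial.map_dvd ι h3, h4, by rw [natDegree_ι]; exact h5⟩)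
      (by
        rw [natDegree_ι, ← hd, Nat.sub_add_cancel hM1, hMd]
        have h3 : d * w ≤ K * d * w := by
          rw [mul_assoc]; exact Nat.le_mul_of_pos_left _ (by omega)
        omega)
    have hinj : Function.Injective ι := Int.cast_injective
    exact ⟨(Polynomial.map_eq_zero_iff hinj).mp hz.1, (Polynomial.map_eq_zero_iff hinj).mp hz.2⟩
  obtain ⟨j, hj, hξj⟩ := hex
  -- divisibility
  have hJM : J ≤ M := by omega
  have hdvd : x ^ (M - j) ∣ ξ j := by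
    have h3 := pow_dvd_th_iter Θ hdiv j
    rw [th_iter_sub, ← st_iter hU', ← st_iter hV'] at h3
    have hAU : ((st Θ L)^[j] A * U).natDegree ≤ D + DU :=
      natDegree_mul_le.trans (Nat.add_le_add (hAd j hj) hUD)
    have hBV : ((st Θ M')^[j] B * V).natDegree ≤ D + DU :=
      natDegree_mul_le.trans (Nat.add_le_add (hBd j hj) hVD)
    have h4 := hv_dvd hFm ((natDegree_sub_le _ _).trans (max_le hAU hBV)) h3 u v
    rw [hv_sub, hv_mul (hAd j hj) hUD, hv_mul (hBd j hj) hVD, hUv, hVv] at h4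
    have h6 := (pow_dvd_pow_of_dvd hx (M - j)).trans h4
    have h7 : x ^ (M - j) ∣ x ^ p := pow_dvd_pow _ (by omega)
    have h8 : x ^ (M - j) ∣ β * ξ j := by
      have h9 : β * ξ j = (hv D ((st Θ L)^[j] A) u v * (m * α) -
          hv D ((st Θ M')^[j] B) u v * (m * β)) -
          (hv D ((st Θ L)^[j] A) u v * m * ρ) * x ^ p := by
        rw [hξ, heq]
        ring
      rw [h9]
      exact dvd_sub h6 (Dvd.dvd.mul_left h7 _)
    exact (IsCoprime.pow_left hxβ).dvd_of_dvd_mul_left h8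
  -- sizes
  have hvA := value_iter hA hΘs hLs hΘQ hLQ hj hQ1 huQ hvQ hAc hn1
  have hvB := value_iter hB hΘs hMs hΘQ hMQ hj hQ1 huQ hvQ hBc hn1
  obtain ⟨W, hW⟩ : ∃ W, W = ((Q ^ 4 * ((n + J * (4 * K)) + 2 * p * K)) ^ J *
    (n * (2 * n * S) ^ (32 * K))) * (Q * t) ^ (n + J * (4 * K)) := ⟨_, rfl⟩
  rw [← hW, ← hD] at hvA hvB
  have hup : (ξ j).natAbs ≤ Q ^ (2 * p) * (W + W) := by
    rw [hξ, Int.natAbs_mul]
    refine Nat.mul_le_mul hmQ ((Int.natAbs_sub_le _ _).trans (Nat.add_le_add ?_ hvB))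
    rw [Int.natAbs_mul, hσ, one_mul]
    exact hvA
  have hlow : x.natAbs ^ (M - J) ≤ (ξ j).natAbs := by
    have h3 := Nat.le_of_dvd (Int.natAbs_pos.mpr hξj) (Int.natAbs_dvd_natAbs.mpr hdvd)
    rw [Int.natAbs_pow] at h3
    exact (Nat.pow_le_pow_right (Int.natAbs_pos.mpr hx0) (by omega)).trans h3
  -- the contradiction
  refine numeric (K := K) (w := w) (p := p) (n := n) (J := J) (t := t) (Q := Q) hK hw hpw hnle hJle hQ1
    ht h1 h2 ?_
  rw [← hS, ← hM]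
  calc t ^ ((n + J * (4 * K)) + 12 * K * w) ≤ t ^ (d * (M - J)) := by
        apply Nat.pow_le_pow_right (by omega)
        rw [hn, hM, hJ]
        exact ar_deg hd1' hdK' hw
    _ = (t ^ d) ^ (M - J) := by rw [pow_mul]
    _ ≤ (Q * x.natAbs) ^ (M - J) := Nat.pow_le_pow_left (by rw [hd]; exact hxt) _
    _ = Q ^ (M - J) * x.natAbs ^ (M - J) := mul_pow _ _ _
    _ ≤ Q ^ M * (Q ^ (2 * p) * (W + W)) :=
        Nat.mul_le_mul (Nat.pow_le_pow_right hQ1 (by omega)) (hlow.trans hup)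
    _ = _ := by rw [hW]; ring

end Pool.Agent.Helper4.RC
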