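import Mathlib
import Pool.Agent.Helper4.RC.Bez
import Pool.Graph.R_pool_sql_team_seeded_2aa45f1a.Q57.ZP.Rid

/-!
# The denominators
-/

set_option autoImplicit false

namespace Pool.Agent.Helper4.RC

open Polynomial Finset
open Pool.Agent.Helper4.PC (l1)

/-- the theorem of Mahler for irreducible forms of degree at least three -/
theorem mahler_bound {E : ℤ[X]} (hirr : Irreducible (E.map ι)) (h3 : 3 ≤ E.natDegree) (B : ℕ) :
    ∃ T : ℕ, ∀ u v : ℤ, IsCoprime u v → hv E.natDegree E u v ≠ 0 →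
      (hv E.natDegree E u v).natAbs ≤ B → max u.natAbs v.natAbs ≤ T := by
  have hfin := Pool.Agent.Q57.ZP.mahler_sqf E hirr.squarefree h3 B
  obtain ⟨T, hT⟩ := (hfin.image fun z => max z.1.natAbs z.2.natAbs).bddAbove
  refine ⟨T, fun u v huv h0 hB => hT ⟨(u, v), ⟨huv, h0, fun p hp hdvd => ?_⟩, rfl⟩⟩
  have h1 : (p : ℤ) ∣ hv E.natDegree E u v := hdvd
  have h2 := Int.natAbs_dvd_natAbs.mpr h1
  rw [Int.natAbs_natCast] at h2
  exact (Nat.le_of_dvd (Int.natAbs_pos.mpr h0) h2).trans hB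

/-- the value of a factor -/
theorem factor_value {a b : ℕ} {E A P : ℤ[X]} {c : ℤ} (hc : c ≠ 0) (hE : E.natDegree = a)
    (hA : A.natDegree ≤ b) (h : E * A = C c * P) {u v : ℤ} {R : ℕ} (h0 : hv (a + b) P u v ≠ 0)
    (hR : (hv (a + b) P u v).natAbs ≤ R) :
    hv a E u v ≠ 0 ∧ (hv a E u v).natAbs ≤ c.natAbs * R := by
  have h1 : hv a E u v * hv b A u v = c * hv (a + b) P u v := by
    rw [← hv_mul hE.le hA, h, hv_C_mul]
  have h2 : c * hv (a + b) P u v ≠ 0 := mul_ne_zero hc h0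
  constructor
  · intro h3
    rw [h3, zero_mul] at h1
    exact h2 h1.symm
  · have h3 : hv a E u v ∣ c * hv (a + b) P u v := Dvd.intro _ h1
    have h4 := Nat.le_of_dvd (Int.natAbs_pos.mpr h2) (Int.natAbs_dvd_natAbs.mpr h3)
    rw [Int.natAbs_mul] at h4
    exact h4.trans (Nat.mul_le_mul_left _ hR)

/-- the degrees of the factors -/
theorem factor_degree {E A P : ℤ[X]} {c : ℤ} (hc : c ≠ 0) (hP : P ≠ 0) (h : E * A = C c * P) :
    E.natDegree + A.natDegree = P.natDegree := by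
  have h1 : E * A ≠ 0 := by
    rw [h]
    exact mul_ne_zero (C_ne_zero.mpr hc) hP
  rw [← natDegree_mul (left_ne_zero_of_mul h1) (right_ne_zero_of_mul h1), h, natDegree_C_mul hc]

/-- a polynomial is a power of a given irreducible one, or the arguments are bounded -/
theorem power_or_bounded {E W : ℤ[X]} {e : ℚ[X]} {c : ℤ} (hc : c ≠ 0) (hE : E.map ι = C (c : ℚ) * e)
    (he : Irreducible e) (hW : 1 ≤ W.natDegree) (B : ℕ) :
    (∃ (k : ℕ) (κ : ℚ), κ ≠ 0 ∧ W.map ι = C κ * e ^ k) ∨ (∃ T : ℕ, ∀ u v : ℤ,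
      (hv E.natDegree E u v).natAbs ≤ B → hv W.natDegree W u v ≠ 0 →
      (hv W.natDegree W u v).natAbs ≤ B → max u.natAbs v.natAbs ≤ T) := by
  have hW0 : W ≠ 0 := by rintro rfl; rw [natDegree_zero] at hW; omega
  have hWq : W.map ι ≠ 0 := (Polynomial.map_ne_zero_iff (f := ι) Int.cast_injective).mpr hW0
  obtain ⟨s, hs, hWs⟩ := (FiniteMultiplicity.of_not_isUnit he.not_isUnit hWq).exists_eq_pow_mul_and_not_dvd
  obtain ⟨k, hk⟩ : ∃ k, k = multiplicity e (W.map ι) := ⟨_, rfl⟩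
  rw [← hk] at hs
  rcases Nat.eq_zero_or_pos s.natDegree with h0 | h0
  · left
    rw [eq_C_of_natDegree_eq_zero h0] at hs
    refine ⟨k, s.coeff 0, ?_, by rw [hs]; ring⟩
    intro h1
    rw [h1, C_0, mul_zero] at hs
    exact hWq hs
  · right
    obtain ⟨D, S, hD, hS⟩ := clear s
    have hcq : (c : ℚ) ≠ 0 := by exact_mod_cast hc
    have hDq : (D : ℚ) ≠ 0 := by exact_mod_cast hD
    have hSd : S.natDegree = s.natDegree := by
      rw [← natDegree_ι S, hS, natDegree_C_mul hDq]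
    have hrel : S * E ^ k = C (D * c ^ k) * W := by
      apply map_inj
      rw [Polynomial.map_mul, Polynomial.map_mul, Polynomial.map_pow, Polynomial.map_C, ι_apply, hE,
        hS, hs, mul_pow]
      push_cast
      rw [C_mul, C_pow]
      ring
    have hDc : D * c ^ k ≠ 0 := mul_ne_zero hD (pow_ne_zero _ hc)
    have hdeg := factor_degree hDc hW0 hrel
    have hed : 1 ≤ E.natDegree := by
      rw [← natDegree_ι E, hE, natDegree_C_mul hcq]
      exact he.natDegree_pos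
    have hcop : IsCoprime (E.map ι) (S.map ι) := by
      rw [hE, hS]
      have h1 : IsCoprime e s := he.coprime_iff_not_dvd.mpr hWs
      have h2 : IsUnit (C (c : ℚ)) := isUnit_C.mpr (isUnit_iff_ne_zero.mpr hcq)
      have h3 : IsUnit (C (D : ℚ)) := isUnit_C.mpr (isUnit_iff_ne_zero.mpr hDq)
      rw [isCoprime_mul_unit_left_left h2, isCoprime_mul_unit_left_right h3]
      exact h1
    obtain ⟨T, hT⟩ := bounded hed (by omega : 1 ≤ S.natDegree) rfl rfl hcop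
      (B + (D * c ^ k).natAbs * B)
    refine ⟨T, fun u v h1 h2 h3 => hT u v (by omega) ?_⟩
    rw [← hdeg] at h2 h3
    have h4 := (factor_value hDc rfl le_rfl hrel h2 h3).2
    omega

/-- **The structure of the denominators.** -/
theorem denoms {f g h : ℤ[X]} (hf : 1 ≤ f.natDegree) (hg : 1 ≤ g.natDegree) (hh : 1 ≤ h.natDegree)
    (R : ℕ) : (∃ (e : ℚ[X]) (k₁ k₂ k₃ : ℕ) (κ₁ κ₂ κ₃ : ℚ), κ₁ ≠ 0 ∧ κ₂ ≠ 0 ∧ κ₃ ≠ 0 ∧
      1 ≤ e.natDegree ∧ e.natDegree ≤ 2 ∧ f.map ι = C κ₁ * e ^ k₁ ∧ g.map ι = C κ₂ * e ^ k₂ ∧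
      h.map ι = C κ₃ * e ^ k₃) ∨ (∃ T : ℕ, ∀ u v : ℤ, IsCoprime u v →
      hv f.natDegree f u v ≠ 0 → (hv f.natDegree f u v).natAbs ≤ R →
      hv g.natDegree g u v ≠ 0 → (hv g.natDegree g u v).natAbs ≤ R →
      hv h.natDegree h u v ≠ 0 → (hv h.natDegree h u v).natAbs ≤ R →
      max u.natAbs v.natAbs ≤ T) := by
  have hf0 : f ≠ 0 := by rintro rfl; rw [natDegree_zero] at hf; omega
  obtain ⟨e, he, s, hs⟩ := exists_irreducible_of_natDegree_pos
    (f := f.map ι) (by rw [natDegree_ι]; omega)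
  obtain ⟨c, E, hc, hE⟩ := clear e
  obtain ⟨D, S, hD, hS⟩ := clear s
  have hcq : (c : ℚ) ≠ 0 := by exact_mod_cast hc
  have hEd : E.natDegree = e.natDegree := by
    rw [← natDegree_ι E, hE, natDegree_C_mul hcq]
  have hrel : E * S = C (c * D) * f := by
    apply map_inj
    simp only [Polynomial.map_mul, Polynomial.map_C, hE, hS, hs, ι_apply, C_mul]
    ring
  have hcD : c * D ≠ 0 := mul_ne_zero hc hD
  have hdeg := factor_degree hcD hf0 hrel
  obtain ⟨B, hB⟩ : ∃ B, B = (c * D).natAbs * R + R := ⟨_, rfl⟩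
  have hval : ∀ u v : ℤ, hv f.natDegree f u v ≠ 0 → (hv f.natDegree f u v).natAbs ≤ R →
      hv E.natDegree E u v ≠ 0 ∧ (hv E.natDegree E u v).natAbs ≤ B := by
    intro u v h1 h2
    rw [← hdeg] at h1 h2
    have h3 := factor_value hcD rfl le_rfl hrel h1 h2
    exact ⟨h3.1, by omega⟩
  rcases power_or_bounded hc hE he hf B with ⟨k₁, κ₁, hκ₁, e₁⟩ | ⟨T, hT⟩
  swap
  · right
    refine ⟨T, fun u v _ h1 h2 _ _ _ _ => hT u v (hval u v h1 h2).2 h1 (by omega)⟩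
  rcases power_or_bounded hc hE he hg B with ⟨k₂, κ₂, hκ₂, e₂⟩ | ⟨T, hT⟩
  swap
  · right
    refine ⟨T, fun u v _ h1 h2 h3 h4 _ _ => hT u v (hval u v h1 h2).2 h3 (by omega)⟩
  rcases power_or_bounded hc hE he hh B with ⟨k₃, κ₃, hκ₃, e₃⟩ | ⟨T, hT⟩
  swap
  · right
    refine ⟨T, fun u v _ h1 h2 _ _ h5 h6 => hT u v (hval u v h1 h2).2 h5 (by omega)⟩
  rcases Nat.lt_or_ge e.natDegree 3 with h3 | h3
  · left
    exact ⟨e, k₁, k₂, k₃, κ₁, κ₂, κ₃, hκ₁, hκ₂, hκ₃, he.natDegree_pos, by omega, e₁, e₂, e₃⟩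
  · right
    have hEi : Irreducible (E.map ι) := by
      rw [hE]
      have h2 : IsUnit (C (c : ℚ)) := isUnit_C.mpr (isUnit_iff_ne_zero.mpr hcq)
      exact (irreducible_isUnit_mul h2).mpr he
    obtain ⟨T, hT⟩ := mahler_bound hEi (by omega) B
    exact ⟨T, fun u v huv h1 h2 _ _ _ _ => hT u v huv (hval u v h1 h2).1 (hval u v h1 h2).2⟩

end Pool.Agent.Helper4.RC
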