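import Mathlib
import Pool.Agent.Helper4.RC.Core

/-!
# The case of a large largest exponent: rational functions
-/

set_option autoImplicit false

namespace Pool.Agent.Helper4.RC

open Polynomial Finset
open Pool.Agent.Helper4.PC (l1 l1_add_le l1_mul_le l1_C_mul l1_derivative_le l1_pow_le)

/-- the logarithmic derivative of `P ^ q R ^ r` times `P R T` -/
noncomputable def lam (P R T : ℤ[X]) (q r : ℕ) : ℤ[X] :=
  C (q : ℤ) * (derivative P * (R * T)) + C (r : ℤ) * (derivative R * (P * T))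

theorem lam_mul (P R T : ℤ[X]) {q r : ℕ} (hq : 0 < q) (hr : 0 < r) :
    (P * R * T) * derivative (P ^ q * R ^ r) = lam P R T q r * (P ^ q * R ^ r) := by
  obtain ⟨q, rfl⟩ : ∃ q', q = q' + 1 := ⟨q - 1, by omega⟩
  obtain ⟨r, rfl⟩ : ∃ r', r = r' + 1 := ⟨r - 1, by omega⟩
  rw [lam, derivative_mul, derivative_pow_succ, derivative_pow_succ, pow_succ, pow_succ]
  push_cast
  ring

theorem natDegree_lam {P R T : ℤ[X]} {K : ℕ} (q r : ℕ) (hP : P.natDegree ≤ K) (hR : R.natDegree ≤ K)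
    (hT : T.natDegree ≤ 2 * K) : (lam P R T q r).natDegree ≤ 4 * K := by
  have a1 := natDegree_add_le (C (q : ℤ) * (derivative P * (R * T))) (C (r : ℤ) * (derivative R * (P * T)))
  have a2 := natDegree_C_mul_le (q : ℤ) (derivative P * (R * T))
  have a3 := natDegree_C_mul_le (r : ℤ) (derivative R * (P * T))
  have a4 := natDegree_mul_le (p := derivative P) (q := R * T)
  have a5 := natDegree_mul_le (p := derivative R) (q := P * T)
  have a6 := natDegree_mul_le (p := R) (q := T)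
  have a7 := natDegree_mul_le (p := P) (q := T)
  have a8 := natDegree_derivative_le P
  have a9 := natDegree_derivative_le R
  rw [lam]
  omega

theorem l1_lam {P R T : ℤ[X]} {K Q p q r : ℕ} (hP : P.natDegree ≤ K) (hR : R.natDegree ≤ K)
    (hPQ : l1 P ≤ Q) (hRQ : l1 R ≤ Q) (hTQ : l1 T ≤ Q ^ 2) (hq : q ≤ p) (hr : r ≤ p) :
    l1 (lam P R T q r) ≤ Q ^ 4 * (2 * p * K) := by
  have key : ∀ {P R : ℤ[X]} {q : ℕ}, P.natDegree ≤ K → l1 P ≤ Q → l1 R ≤ Q → q ≤ p →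
      l1 (C (q : ℤ) * (derivative P * (R * T))) ≤ Q ^ 4 * (p * K) := by
    intro P R q hP hPQ hRQ hq
    rw [l1_C_mul, Int.natAbs_natCast]
    calc q * l1 (derivative P * (R * T)) ≤ p * ((K * Q) * (Q * Q ^ 2)) := by
          refine Nat.mul_le_mul hq ((l1_mul_le _ _).trans (Nat.mul_le_mul ?_ ?_))
          · exact (l1_derivative_le P).trans (Nat.mul_le_mul hP hPQ)
          · exact (l1_mul_le _ _).trans (Nat.mul_le_mul hRQ hTQ)
      _ = Q ^ 4 * (p * K) := by ring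
  refine (l1_add_le _ _).trans ((Nat.add_le_add (key hP hPQ hRQ hq) (key hR hRQ hPQ hr)).trans ?_)
  exact le_of_eq (by ring)

theorem large {K : ℕ} (hK : 1 ≤ K) {d₁ d₂ d₃ : ℕ} {f₁ f₂ g₁ g₂ h₁ h₂ : ℤ[X]}
    (hd₁ : 1 ≤ d₁) (hd₁K : d₁ ≤ K) (hd₂ : 1 ≤ d₂) (hd₂K : d₂ ≤ K) (hd₃ : 1 ≤ d₃) (hd₃K : d₃ ≤ K)
    (hf₁ : f₁.natDegree = d₁) (hf₂ : f₂.natDegree = d₁) (hg₁ : g₁.natDegree = d₂)
    (hg₂ : g₂.natDegree = d₂) (hh₁ : h₁.natDegree = d₃) (hh₂ : h₂.natDegree = d₃)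
    (cff : IsCoprime (f₁.map ι) (f₂.map ι)) (cfg₁ : IsCoprime (f₁.map ι) (g₁.map ι))
    (cfg₂ : IsCoprime (f₁.map ι) (g₂.map ι)) (cfh₁ : IsCoprime (f₁.map ι) (h₁.map ι))
    (cfh₂ : IsCoprime (f₁.map ι) (h₂.map ι)) (cgg : IsCoprime (g₁.map ι) (g₂.map ι))
    (cgh : IsCoprime (g₁.map ι) (h₁.map ι)) (chh : IsCoprime (h₁.map ι) (h₂.map ι)) (R : ℕ) :
    ∃ T : ℕ, ∀ (u v : ℤ) (t : ℕ), t = max u.natAbs v.natAbs → T ≤ t → v ≠ 0 →
      ∀ (X' Y Z σ ρ : ℤ) (p q r : ℕ),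
      hv d₁ f₁ u v = X' * hv d₁ f₂ u v → hv d₁ f₂ u v ≠ 0 → (hv d₁ f₂ u v).natAbs ≤ R →
      hv d₂ g₁ u v = Y * hv d₂ g₂ u v → hv d₂ g₂ u v ≠ 0 → (hv d₂ g₂ u v).natAbs ≤ R →
      hv d₃ h₁ u v = Z * hv d₃ h₂ u v → hv d₃ h₂ u v ≠ 0 → (hv d₃ h₂ u v).natAbs ≤ R →
      X' ≠ 0 → Y ≠ 0 → Z ≠ 0 → σ.natAbs = 1 → ρ.natAbs = 1 → Y ^ q = σ * Z ^ r + ρ * X' ^ p →
      IsCoprime X' Z → 0 < q → 0 < r → q ≤ p → r ≤ p → 1188 * K ^ 4 ≤ p →
      (600 * K ^ 4 * p) ^ (40 * K) ≤ t → False := by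
  have hf₁0 : f₁ ≠ 0 := by rintro rfl; rw [natDegree_zero] at hf₁; omega
  have hg₁0 : g₁ ≠ 0 := by rintro rfl; rw [natDegree_zero] at hg₁; omega
  have hg₂0 : g₂ ≠ 0 := by rintro rfl; rw [natDegree_zero] at hg₂; omega
  have hh₁0 : h₁ ≠ 0 := by rintro rfl; rw [natDegree_zero] at hh₁; omega
  have hh₂0 : h₂ ≠ 0 := by rintro rfl; rw [natDegree_zero] at hh₂; omega
  obtain ⟨a, ha⟩ : ∃ a, a = f₁.leadingCoeff := ⟨_, rfl⟩
  have ha0 : a ≠ 0 := by rw [ha]; exact leadingCoeff_ne_zero.mpr hf₁0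
  have ha1 : 1 ≤ a.natAbs := Int.natAbs_pos.mpr ha0
  obtain ⟨C₀, hC₀⟩ := size hd₁ hf₁ hf₂.le cff
  obtain ⟨F, hF⟩ : ∃ F, F = integralNormalization f₁ := ⟨_, rfl⟩
  obtain ⟨G₁, hG₁⟩ : ∃ G, G = scaleRoots g₁ a := ⟨_, rfl⟩
  obtain ⟨G₂, hG₂⟩ : ∃ G, G = scaleRoots g₂ a := ⟨_, rfl⟩
  obtain ⟨H₁, hH₁⟩ : ∃ G, G = scaleRoots h₁ a := ⟨_, rfl⟩
  obtain ⟨H₂, hH₂⟩ : ∃ G, G = scaleRoots h₂ a := ⟨_, rfl⟩
  obtain ⟨Q, hQ⟩ : ∃ Q, Q = 2 + l1 F + l1 G₁ + l1 G₂ + l1 H₁ + l1 H₂ + l1 g₁ + l1 h₁ +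
    a.natAbs ^ K * (R + 1) + 2 * C₀ * R := ⟨_, rfl⟩
  have hFd : F.natDegree = d₁ := by rw [hF, natDegree_integralNormalization]; exact hf₁
  have hG₁d : G₁.natDegree = d₂ := by rw [hG₁, natDegree_scaleRoots]; exact hg₁
  have hG₂d : G₂.natDegree = d₂ := by rw [hG₂, natDegree_scaleRoots]; exact hg₂
  have hH₁d : H₁.natDegree = d₃ := by rw [hH₁, natDegree_scaleRoots]; exact hh₁
  have hH₂d : H₂.natDegree = d₃ := by rw [hH₂, natDegree_scaleRoots]; exact hh₂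
  have haR : ∀ {d : ℕ} {s : ℕ}, d ≤ K → s ≤ R → a.natAbs ^ d * s ≤ Q := by
    intro d s h1 h2
    have h3 : a.natAbs ^ d * s ≤ a.natAbs ^ K * (R + 1) :=
      Nat.mul_le_mul (Nat.pow_le_pow_right ha1 h1) (by omega)
    omega
  have haQ : a.natAbs ≤ Q := by
    have h1 : a.natAbs ≤ a.natAbs ^ K := Nat.le_self_pow (by omega) _
    have h2 : a.natAbs ^ K ≤ a.natAbs ^ K * (R + 1) := Nat.le_mul_of_pos_right _ (by omega)
    omega
  -- coprimality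
  have haQ' : IsUnit (ι a) := by
    rw [isUnit_iff_ne_zero, ι_apply]
    exact_mod_cast ha0
  have hmap : ∀ {P : ℤ[X]}, P ≠ 0 → (scaleRoots P a).map ι = scaleRoots (P.map ι) (ι a) := by
    intro P hP
    apply map_scaleRoots
    intro h0
    exact (leadingCoeff_ne_zero.mpr hP) (Int.cast_injective (α := ℚ) (by
      rw [ι_apply] at h0
      rw [h0, Int.cast_zero]))
  have hcop : ∀ {P S : ℤ[X]}, P ≠ 0 → S ≠ 0 → IsCoprime (P.map ι) (S.map ι) →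
      IsCoprime ((scaleRoots P a).map ι) ((scaleRoots S a).map ι) := by
    intro P S hP hS hPS
    rw [hmap hP, hmap hS]
    exact isCoprime_scaleRoots _ _ _ haQ' hPS
  have hdvd : F.map ι ∣ (scaleRoots f₁ a).map ι := by
    apply Polynomial.map_dvd
    rw [hF, ha, ← integralNormalization_mul_C_leadingCoeff]
    exact Dvd.intro _ rfl
  have kFG₁ : IsCoprime (F.map ι) (G₁.map ι) := by
    rw [hG₁]; exact (hcop hf₁0 hg₁0 cfg₁).of_isCoprime_of_dvd_left hdvd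
  have kFG₂ : IsCoprime (F.map ι) (G₂.map ι) := by
    rw [hG₂]; exact (hcop hf₁0 hg₂0 cfg₂).of_isCoprime_of_dvd_left hdvd
  have kFH₁ : IsCoprime (F.map ι) (H₁.map ι) := by
    rw [hH₁]; exact (hcop hf₁0 hh₁0 cfh₁).of_isCoprime_of_dvd_left hdvd
  have kFH₂ : IsCoprime (F.map ι) (H₂.map ι) := by
    rw [hH₂]; exact (hcop hf₁0 hh₂0 cfh₂).of_isCoprime_of_dvd_left hdvd
  have kGG : IsCoprime (G₁.map ι) (G₂.map ι) := by rw [hG₁, hG₂]; exact hcop hg₁0 hg₂0 cgg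
  have kGH : IsCoprime (G₁.map ι) (H₁.map ι) := by rw [hG₁, hH₁]; exact hcop hg₁0 hh₁0 cgh
  have kHH : IsCoprime (H₁.map ι) (H₂.map ι) := by rw [hH₁, hH₂]; exact hcop hh₁0 hh₂0 chh
  refine ⟨Q ^ (36000 * K ^ 5) + 16 * Q ^ 8 + 2, ?_⟩
  intro u v t ht hTt hv0 X' Y Z σ ρ p q r eX hf₂v hf₂R eY hg₂v hg₂R eZ hh₂v hh₂R hX0 hY0 hZ0 hσ hρ
    heq hXZ hq0 hr0 hqp hrp hp hpt
  have hut : u.natAbs ≤ t := by omega
  have hvt : v.natAbs ≤ t := by omega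
  -- `w`
  obtain ⟨w, hw⟩ : ∃ w, w = p / (132 * K ^ 3) := ⟨_, rfl⟩
  have hK3 : 0 < 132 * K ^ 3 := by positivity
  have hw1 : 132 * K ^ 3 * w ≤ p := by rw [hw]; exact Nat.mul_div_le _ _
  have hw2 : p < 132 * K ^ 3 * (w + 1) := by
    rw [hw]
    exact Nat.lt_mul_div_succ p hK3
  have hwK : 9 * K ≤ w := by
    rw [hw, Nat.le_div_iff_mul_le hK3]
    calc 9 * K * (132 * K ^ 3) = 1188 * K ^ 4 := by ring
      _ ≤ p := hp
  have hpw : p ≤ 264 * K ^ 3 * w := by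
    have a1 : 132 * K ^ 3 * (w + 1) ≤ 132 * K ^ 3 * (2 * w) := Nat.mul_le_mul_left _ (by omega)
    calc p ≤ 132 * K ^ 3 * (2 * w) := by omega
      _ = _ := by ring
  have hwp : 64 * K * w ≤ p := by
    refine le_trans ?_ hw1
    refine Nat.mul_le_mul_right _ ?_
    have a1 : K ^ 1 ≤ K ^ 3 := Nat.pow_le_pow_right (by omega) (by norm_num)
    rw [pow_one] at a1
    omega
  have hp1 : 1 ≤ p := by
    have : 1 ≤ K ^ 4 := Nat.one_le_pow _ _ (by omega)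
    omega
  -- the size of `X'`
  have hX1 : 1 ≤ X'.natAbs := Int.natAbs_pos.mpr hX0
  have hxt : t ^ d₁ ≤ Q * X'.natAbs := by
    have h1 := hC₀ u v
    rw [← ht, eX, Int.natAbs_mul] at h1
    have h2 : X'.natAbs * (hv d₁ f₂ u v).natAbs + (hv d₁ f₂ u v).natAbs ≤ X'.natAbs * (2 * R) := by
      calc _ = (X'.natAbs + 1) * (hv d₁ f₂ u v).natAbs := by ring
        _ ≤ (2 * X'.natAbs) * R := Nat.mul_le_mul (by omega) hf₂R
        _ = _ := by ring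
    calc t ^ d₁ ≤ C₀ * (X'.natAbs * (2 * R)) := h1.trans (Nat.mul_le_mul_left _ h2)
      _ = (2 * C₀ * R) * X'.natAbs := by ring
      _ ≤ Q * X'.natAbs := Nat.mul_le_mul_right _ (by omega)
  have hval : ∀ {d : ℕ} {P S : ℤ[X]} {Y : ℤ}, d ≤ K → P.natDegree = d → l1 P ≤ Q →
      hv d P u v = Y * hv d S u v → hv d S u v ≠ 0 → Y.natAbs ≤ Q * t ^ K := by
    intro d P S Y hdK hP hPQ h1 h2
    have h3 := natAbs_hv_le hP.le hut hvt
    rw [h1, Int.natAbs_mul] at h3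
    have h4 : Y.natAbs ≤ Y.natAbs * (hv d S u v).natAbs :=
      Nat.le_mul_of_pos_right _ (Int.natAbs_pos.mpr h2)
    refine h4.trans (h3.trans (Nat.mul_le_mul hPQ (Nat.pow_le_pow_right (by omega) hdK)))
  -- one of the other exponents is large
  have hbig : (32 * K + 1) * F.natDegree * w ≤ q ∨ (32 * K + 1) * F.natDegree * w ≤ r := by
    rw [hFd]
    by_contra hcon
    push Not at hcon
    obtain ⟨b1, b2⟩ := hcon
    obtain ⟨n, hn⟩ : ∃ n, n = (32 * K + 1) * d₁ * w := ⟨_, rfl⟩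
    rw [← hn] at b1 b2
    have c3 : n ≤ 33 * (K ^ 2 * w) := by rw [hn]; exact ar_n hd₁ hd₁K
    have c4 : 4 * K * n ≤ p := by
      calc 4 * K * n ≤ 4 * K * (33 * (K ^ 2 * w)) := Nat.mul_le_mul_left _ c3
        _ = 132 * K ^ 3 * w := by ring
        _ ≤ p := hw1
    have c6 : X'.natAbs ^ p ≤ Y.natAbs ^ q + Z.natAbs ^ r := by
      have a1 : ρ * X' ^ p = Y ^ q - σ * Z ^ r := by
        rw [heq]; ring
      have a2 : (ρ * X' ^ p).natAbs = X'.natAbs ^ p := by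
        rw [Int.natAbs_mul, hρ, one_mul, Int.natAbs_pow]
      have a3 : (σ * Z ^ r).natAbs = Z.natAbs ^ r := by
        rw [Int.natAbs_mul, hσ, one_mul, Int.natAbs_pow]
      rw [← a2, a1, ← a3, ← Int.natAbs_pow]
      exact Int.natAbs_sub_le _ _
    exact small_others hp1 hd₁ hxt (hval hd₂K hg₁ (by omega) eY hg₂v)
      (hval hd₃K hh₁ (by omega) eZ hh₂v) c6 b1.le b2.le c4 hK (by omega) (by omega)
  -- the values of the scaled polynomials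
  have vF : hv d₁ F (a * u) v = a ^ (d₁ - 1) * hv d₁ f₁ u v := by
    rw [hF, ha]; exact hv_normalization (by omega) hf₁ u v
  have vG₁ : hv d₂ G₁ (a * u) v = a ^ d₂ * hv d₂ g₁ u v := by rw [hG₁]; exact hv_scaleRoots hg₁ a u v
  have vG₂ : hv d₂ G₂ (a * u) v = a ^ d₂ * hv d₂ g₂ u v := by rw [hG₂]; exact hv_scaleRoots hg₂ a u v
  have vH₁ : hv d₃ H₁ (a * u) v = a ^ d₃ * hv d₃ h₁ u v := by rw [hH₁]; exact hv_scaleRoots hh₁ a u v
  have vH₂ : hv d₃ H₂ (a * u) v = a ^ d₃ * hv d₃ h₂ u v := by rw [hH₂]; exact hv_scaleRoots hh₂ a u v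
  have hapow : ∀ i, a ^ i ≠ 0 := fun i => pow_ne_zero i ha0
  have nG₁ : hv d₂ G₁ (a * u) v ≠ 0 := by
    rw [vG₁, eY]; exact mul_ne_zero (hapow _) (mul_ne_zero hY0 hg₂v)
  have nG₂ : hv d₂ G₂ (a * u) v ≠ 0 := by rw [vG₂]; exact mul_ne_zero (hapow _) hg₂v
  have nH₁ : hv d₃ H₁ (a * u) v ≠ 0 := by
    rw [vH₁, eZ]; exact mul_ne_zero (hapow _) (mul_ne_zero hZ0 hh₂v)
  have nH₂ : hv d₃ H₂ (a * u) v ≠ 0 := by rw [vH₂]; exact mul_ne_zero (hapow _) hh₂v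
  have dG₁ : (G₁ ^ q).natDegree ≤ q * d₂ := by rw [natDegree_pow, hG₁d]
  have dG₂ : (G₂ ^ q).natDegree ≤ q * d₂ := by rw [natDegree_pow, hG₂d]
  have dH₁ : (H₁ ^ r).natDegree ≤ r * d₃ := by rw [natDegree_pow, hH₁d]
  have dH₂ : (H₂ ^ r).natDegree ≤ r * d₃ := by rw [natDegree_pow, hH₂d]
  have hl1 : ∀ {P S : ℤ[X]}, l1 P ≤ Q → l1 S ≤ Q → l1 (P ^ q * S ^ r) ≤ Q ^ (2 * p) := by
    intro P S h1 h2
    calc l1 (P ^ q * S ^ r) ≤ Q ^ q * Q ^ r := (l1_mul_le _ _).trans (Nat.mul_le_mul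
          ((l1_pow_le _ _).trans (Nat.pow_le_pow_left h1 _))
          ((l1_pow_le _ _).trans (Nat.pow_le_pow_left h2 _)))
      _ = Q ^ (q + r) := (pow_add _ _ _).symm
      _ ≤ Q ^ (2 * p) := Nat.pow_le_pow_right (by omega) (by omega)
  have hΘe : (G₁ * H₂ * (G₂ * H₁) : ℤ[X]) = G₂ * H₁ * (G₁ * H₂) := by ring
  have hQl : ∀ {P S : ℤ[X]}, l1 P ≤ Q → l1 S ≤ Q → l1 (P * S) ≤ Q ^ 2 := by
    intro P S h1 h2
    calc l1 (P * S) ≤ Q * Q := (l1_mul_le _ _).trans (Nat.mul_le_mul h1 h2)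
      _ = Q ^ 2 := by ring
  have hdeg2 : ∀ {P S : ℤ[X]}, P.natDegree ≤ K → S.natDegree ≤ K → (P * S).natDegree ≤ 2 * K := by
    intro P S h1 h2
    have := natDegree_mul_le (p := P) (q := S)
    omega
  have hΘd : (G₁ * H₂ * (G₂ * H₁) : ℤ[X]).natDegree ≤ (d₂ + d₃) + (d₂ + d₃) := by
    have a1 := natDegree_mul_le (p := G₁ * H₂) (q := G₂ * H₁)
    have a2 := natDegree_mul_le (p := G₁) (q := H₂)
    have a3 := natDegree_mul_le (p := G₂) (q := H₁)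
    omega
  refine core (K := K) (w := w) (p := p) (t := t) (Q := Q) (DU := q * d₂ + r * d₃) (F := F)
    (Θ := G₁ * H₂ * (G₂ * H₁)) (L := lam G₁ H₂ (G₂ * H₁) q r) (M' := lam G₂ H₁ (G₁ * H₂) q r)
    (U := G₁ ^ q * H₂ ^ r) (V := G₂ ^ q * H₁ ^ r) (u := a * u) (v := v) (x := X') (α := Y ^ q)
    (β := Z ^ r) (m := hv d₂ G₂ (a * u) v ^ q * hv d₃ H₂ (a * u) v ^ r) (σ := σ) (ρ := ρ) hK
    (by rw [hF]; exact monic_integralNormalization hf₁0) (by omega) (by omega)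
    (lam_mul G₁ H₂ (G₂ * H₁) hq0 hr0) ?_ (by omega)
    (natDegree_lam q r (by omega) (by omega) (hdeg2 (by omega) (by omega)))
    (natDegree_lam q r (by omega) (by omega) (hdeg2 (by omega) (by omega))) ?_
    (l1_lam (by omega) (by omega) (by omega) (by omega) (hQl (by omega) (by omega)) hqp hrp)
    (l1_lam (by omega) (by omega) (by omega) (by omega) (hQl (by omega) (by omega)) hqp hrp)
    (natDegree_mul_le.trans (Nat.add_le_add dG₁ dH₂)) (natDegree_mul_le.trans (Nat.add_le_add dG₂ dH₁))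
    ?_ (hl1 (by omega) (by omega)) (hl1 (by omega) (by omega)) ?_ ?_ ?_ (by omega) ?_ hX0 ?_ hv0 ?_
    ?_ ?_ ?_ ?_ (pow_ne_zero _ hY0) (pow_ne_zero _ hZ0) heq hσ (IsCoprime.pow_right hXZ) ?_ ?_ ?_ hwK
    hwp hpw (by omega) (by omega) ?_
  · rw [hΘe]
    exact lam_mul G₂ H₁ (G₁ * H₂) hq0 hr0
  · calc l1 (G₁ * H₂ * (G₂ * H₁)) ≤ Q ^ 2 * Q ^ 2 := (l1_mul_le _ _).trans
          (Nat.mul_le_mul (hQl (by omega) (by omega)) (hQl (by omega) (by omega)))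
      _ = Q ^ 4 := by ring
  · calc q * d₂ + r * d₃ ≤ p * K + p * K :=
          Nat.add_le_add (Nat.mul_le_mul hqp hd₂K) (Nat.mul_le_mul hrp hd₃K)
      _ = 2 * K * p := by ring
  · rw [Polynomial.map_mul, Polynomial.map_pow, Polynomial.map_pow]
    exact kFG₁.pow_right.mul_right kFH₂.pow_right
  · rw [Polynomial.map_mul, Polynomial.map_pow, Polynomial.map_pow]
    exact kFG₂.pow_right.mul_right kFH₁.pow_right
  · rcases hbig with h1 | h1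
    · left
      refine ⟨G₁ ^ q, Dvd.intro _ rfl, ?_, ?_⟩
      · rw [Polynomial.map_mul, Polynomial.map_pow, Polynomial.map_pow, Polynomial.map_pow]
        exact (kGG.pow).mul_right (kGH.pow)
      · rw [natDegree_pow, hG₁d]
        exact h1.trans (Nat.le_mul_of_pos_right _ (by omega))
    · right
      refine ⟨H₁ ^ r, Dvd.intro_left _ rfl, ?_, ?_⟩
      · rw [Polynomial.map_mul, Polynomial.map_pow, Polynomial.map_pow, Polynomial.map_pow]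
        exact (kGH.symm.pow).mul_right (kHH.pow)
      · rw [natDegree_pow, hH₁d]
        exact h1.trans (Nat.le_mul_of_pos_right _ (by omega))
  · rw [hFd, vF, eX]
    exact Dvd.intro (a ^ (d₁ - 1) * hv d₁ f₂ u v) (by ring)
  · rw [hFd, vF, eX]
    exact mul_ne_zero (hapow _) (mul_ne_zero hX0 hf₂v)
  · obtain ⟨e, he⟩ : ∃ e, 4 * K = (d₂ + d₃) + (d₂ + d₃) + e := ⟨4 * K - ((d₂ + d₃) + (d₂ + d₃)), by omega⟩
    rw [he, hv_up hΘd, hv_mul (by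
        have a2 := natDegree_mul_le (p := G₁) (q := H₂)
        omega) (by
        have a2 := natDegree_mul_le (p := G₂) (q := H₁)
        omega), hv_mul hG₁d.le hH₂d.le, hv_mul hG₂d.le hH₁d.le]
    exact mul_ne_zero (pow_ne_zero _ hv0) (mul_ne_zero (mul_ne_zero nG₁ nH₂) (mul_ne_zero nG₂ nH₁))
  · rw [hv_mul dG₁ dH₂, hv_pow hG₁d.le, hv_pow hH₂d.le, vG₁, eY, vG₂]
    ring
  · rw [hv_mul dG₂ dH₁, hv_pow hG₂d.le, hv_pow hH₁d.le, vH₁, eZ, vH₂]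
    ring
  · exact mul_ne_zero (pow_ne_zero _ nG₂) (pow_ne_zero _ nH₂)
  · rw [Int.natAbs_mul, Int.natAbs_pow, Int.natAbs_pow, vG₂, vH₂, Int.natAbs_mul, Int.natAbs_mul,
      Int.natAbs_pow, Int.natAbs_pow]
    calc _ ≤ Q ^ q * Q ^ r := Nat.mul_le_mul (Nat.pow_le_pow_left (haR hd₂K hg₂R) _)
          (Nat.pow_le_pow_left (haR hd₃K hh₂R) _)
      _ = Q ^ (q + r) := (pow_add _ _ _).symm
      _ ≤ Q ^ (2 * p) := Nat.pow_le_pow_right (by omega) (by omega)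
  · rw [hFd]
    exact hxt
  · rw [Int.natAbs_mul]
    exact Nat.mul_le_mul haQ hut
  · exact hvt.trans (Nat.le_mul_of_pos_left _ (by omega))
  · refine le_trans (Nat.pow_le_pow_left (Nat.mul_le_mul_left _ ?_) _) hpt
    rw [hw]
    exact Nat.div_le_self _ _

end Pool.Agent.Helper4.RC
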