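import Mathlib

/-!
# The theorem of Mason and Stothers for binary forms
-/

set_option autoImplicit false

namespace Pool.Agent.Helper4.RC

open Polynomial UniqueFactorizationMonoid UniqueFactorizationDomain EuclideanDomain

variable {k : Type*} [Field k] [CharZero k] [DecidableEq k]

omit [CharZero k] [DecidableEq k] in
theorem natDegree_wronskian_le {a b : k[X]} {D : ℕ} (hD : 1 ≤ D) (ha : a.natDegree ≤ D)
    (hb : b.natDegree ≤ D) : (wronskian a b).natDegree ≤ 2 * D - 2 := by
  obtain ⟨D, rfl⟩ : ∃ D', D = D' + 1 := ⟨D - 1, by omega⟩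
  have ha' : (derivative a).natDegree ≤ D := (natDegree_derivative_le a).trans (by omega)
  have hb' : (derivative b).natDegree ≤ D := (natDegree_derivative_le b).trans (by omega)
  have h1 : (wronskian a b).natDegree ≤ D + 1 + D := by
    rw [wronskian]
    refine (natDegree_sub_le _ _).trans (max_le (natDegree_mul_le.trans (by omega))
      (natDegree_mul_le.trans (by omega)))
  have h2 : (wronskian a b).coeff (D + 1 + D) = 0 := by
    have e1 : (a * derivative b).coeff (D + 1 + D) = a.coeff (D + 1) * (derivative b).coeff D :=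
      coeff_mul_add_eq_of_natDegree_le ha hb'
    have e2 : (derivative a * b).coeff (D + 1 + D) = (derivative a).coeff D * b.coeff (D + 1) := by
      have e3 : D + 1 + D = D + (D + 1) := by ring
      rw [e3]
      exact coeff_mul_add_eq_of_natDegree_le ha' hb
    rw [wronskian, coeff_sub, e1, e2, coeff_derivative, coeff_derivative]
    ring
  rw [natDegree_le_iff_coeff_eq_zero] at h1 ⊢
  intro N hN
  rcases Nat.lt_or_ge (D + 1 + D) N with h3 | h3
  · exact h1 N h3
  · have h4 : N = D + 1 + D := by omega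
    rw [h4]
    exact h2

/-- the sharp form for three polynomials of the same degree -/
theorem sharp {a b c : k[X]} {D : ℕ} (hD : 1 ≤ D) (ha : a.natDegree = D) (hb : b.natDegree = D)
    (hc : c.natDegree = D) (hab : IsCoprime a b) (hsum : a + b + c = 0) :
    D + 2 ≤ (radical (a * b * c)).natDegree := by
  have ha0 : a ≠ 0 := by rintro rfl; rw [natDegree_zero] at ha; omega
  have hb0 : b ≠ 0 := by rintro rfl; rw [natDegree_zero] at hb; omega
  have hc0 : c ≠ 0 := by rintro rfl; rw [natDegree_zero] at hc; omega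
  have hcab : c = -(a + b) := by linear_combination hsum
  have hbc : IsCoprime b c := by
    rw [hcab, IsCoprime.neg_right_iff]
    have := IsCoprime.add_mul_left_right hab.symm 1
    rwa [mul_one] at this
  have hca : IsCoprime c a := by
    rw [hcab, IsCoprime.neg_left_iff]
    have := IsCoprime.add_mul_left_left hab.symm 1
    rw [mul_one, add_comm] at this
    exact this
  obtain ⟨w, hw⟩ : ∃ w, w = wronskian a b := ⟨_, rfl⟩
  have wbc : w = wronskian b c := by rw [hw]; exact wronskian_eq_of_sum_zero hsum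
  have hdvd : divRadical (a * b * c) ∣ w := by
    have adr : divRadical a ∣ w := by rw [hw]; exact divRadical_dvd_wronskian_left a b
    have bdr : divRadical b ∣ w := by rw [hw]; exact divRadical_dvd_wronskian_right a b
    have cdr : divRadical c ∣ w := by rw [wbc]; exact divRadical_dvd_wronskian_right b c
    rw [divRadical_mul (hca.symm.mul_left hbc), divRadical_mul hab]
    exact (hca.divRadical.symm.mul_left hbc.divRadical).mul_dvd
      (hab.divRadical.mul_dvd adr bdr) cdr
  have hw0 : w ≠ 0 := by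
    rintro h0
    rw [h0] at hw
    have h1 := (hab.wronskian_eq_zero_iff.mp hw.symm).1
    have h2 := derivative_eq_zero.mp h1
    omega
  have h1 := natDegree_le_of_dvd hdvd hw0
  have h2 : w.natDegree ≤ 2 * D - 2 := by
    rw [hw]
    exact natDegree_wronskian_le hD ha.le hb.le
  have habc : a * b * c ≠ 0 := mul_ne_zero (mul_ne_zero ha0 hb0) hc0
  have h3 : (a * b * c).natDegree = (radical (a * b * c)).natDegree +
      (divRadical (a * b * c)).natDegree := by
    rw [← Polynomial.natDegree_mul radical_ne_zero (divRadical_ne_zero habc), radical_mul_divRadical]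
  rw [natDegree_mul (mul_ne_zero ha0 hb0) hc0, natDegree_mul ha0 hb0] at h3
  omega

/-- **No identity.** -/
theorem no_identity {f g h e : k[X]} {c₁ c₂ c₃ : k} (hc₁ : c₁ ≠ 0) (hc₂ : c₂ ≠ 0) (hc₃ : c₃ ≠ 0)
    (hf : f ≠ 0) (hg : g ≠ 0) (hh : h ≠ 0) (he : 1 ≤ e.natDegree) (he2 : e.natDegree ≤ 2)
    (fg : IsCoprime f g) (ef : IsCoprime e f) (eg : IsCoprime e g)
    (eh : IsCoprime e h) {p q r α₁ α₂ α₃ D : ℕ} (hD : 1 ≤ D) (hp : 0 < p) (hq : 0 < q) (hr : 0 < r)
    (hpqr : q * r + r * p + p * q ≤ p * q * r) (hα : α₁ = 0 ∨ α₂ = 0 ∨ α₃ = 0)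
    (h₁ : f.natDegree * p + e.natDegree * α₁ = D) (h₂ : g.natDegree * q + e.natDegree * α₂ = D)
    (h₃ : h.natDegree * r + e.natDegree * α₃ = D)
    (hid : C c₁ * (f ^ p * e ^ α₁) + C c₂ * (g ^ q * e ^ α₂) + C c₃ * (h ^ r * e ^ α₃) = 0) :
    False := by
  have he0 : e ≠ 0 := by rintro rfl; rw [natDegree_zero] at he; omega
  have heu : ¬ IsUnit e := by
    intro h0
    have := natDegree_eq_zero_of_isUnit h0
    omega
  -- the factor `e` occurs at most once
  have key : ∀ {u v w : k[X]} {c : k} {s : ℕ}, c ≠ 0 → e ∣ u → e ∣ v → IsCoprime e w →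
      u + v + C c * w ^ s = 0 → False := by
    intro u v w c s hc h1 h2 h3 h4
    apply heu
    have h5 : e ∣ C c * w ^ s := by
      have : C c * w ^ s = -(u + v) := by linear_combination h4
      rw [this, dvd_neg]
      exact dvd_add h1 h2
    have h6 : e ∣ C c := (IsCoprime.pow_right h3).dvd_of_dvd_mul_right h5
    exact isUnit_of_dvd_unit h6 (isUnit_C.mpr (isUnit_iff_ne_zero.mpr hc))
  have hdv : ∀ {u : k[X]} {c : k} {α : ℕ}, 0 < α → e ∣ C c * (u * e ^ α) := fun hα =>
    Dvd.dvd.mul_left (Dvd.dvd.mul_left (dvd_pow_self e (by omega)) _) _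
  have h12 : ¬ (0 < α₁ ∧ 0 < α₂) := by
    rintro ⟨k1, k2⟩
    have k3 : α₃ = 0 := by omega
    rw [k3, pow_zero, mul_one] at hid
    exact key hc₃ (hdv k1) (hdv k2) eh hid
  have h23 : ¬ (0 < α₂ ∧ 0 < α₃) := by
    rintro ⟨k1, k2⟩
    have k3 : α₁ = 0 := by omega
    rw [k3, pow_zero, mul_one] at hid
    exact key (u := C c₂ * (g ^ q * e ^ α₂)) (v := C c₃ * (h ^ r * e ^ α₃)) (w := f) (s := p) hc₁ (hdv k1) (hdv k2) ef
      (by linear_combination hid)
  have h13 : ¬ (0 < α₁ ∧ 0 < α₃) := by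
    rintro ⟨k1, k2⟩
    have k3 : α₂ = 0 := by omega
    rw [k3, pow_zero, mul_one] at hid
    exact key (u := C c₁ * (f ^ p * e ^ α₁)) (v := C c₃ * (h ^ r * e ^ α₃)) (w := g) (s := q) hc₂ (hdv k1) (hdv k2) eg
      (by linear_combination hid)
  have hdeg : ∀ {u : k[X]} {c : k} {p α : ℕ}, c ≠ 0 → u ≠ 0 → u.natDegree * p + e.natDegree * α = D →
      (C c * (u ^ p * e ^ α)).natDegree = D := by
    intro u c p α hc hu h0
    rw [natDegree_C_mul hc, natDegree_mul (pow_ne_zero _ hu) (pow_ne_zero _ he0), natDegree_pow,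
      natDegree_pow, ← h0]
    ring
  have hCu : ∀ {c : k}, c ≠ 0 → IsUnit (C c) := fun hc => isUnit_C.mpr (isUnit_iff_ne_zero.mpr hc)
  have hco : IsCoprime (C c₁ * (f ^ p * e ^ α₁)) (C c₂ * (g ^ q * e ^ α₂)) := by
    rw [isCoprime_mul_unit_left_left (hCu hc₁), isCoprime_mul_unit_left_right (hCu hc₂)]
    have k1 : IsCoprime (f ^ p) (g ^ q) := IsCoprime.pow fg
    have k2 : IsCoprime (f ^ p) (e ^ α₂) := IsCoprime.pow ef.symm
    have k3 : IsCoprime (e ^ α₁) (g ^ q) := IsCoprime.pow eg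
    have k4 : IsCoprime (e ^ α₁) (e ^ α₂) := by
      rcases Nat.eq_zero_or_pos α₁ with k5 | k5
      · rw [k5, pow_zero]; exact isCoprime_one_left
      · have k6 : α₂ = 0 := by omega
        rw [k6, pow_zero]; exact isCoprime_one_right
    exact (k1.mul_right k2).mul_left (k3.mul_right k4)
  have hs := sharp hD (hdeg hc₁ hf h₁) (hdeg hc₂ hg h₂) (hdeg hc₃ hh h₃) hco hid
  -- the degree of the radical
  obtain ⟨N, hN⟩ : ∃ N, N = p + q + r + α₁ + α₂ + α₃ := ⟨_, rfl⟩
  have hfgh0 : f * g * h ≠ 0 := mul_ne_zero (mul_ne_zero hf hg) hh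
  have hrad : ∀ {T : k[X]}, T ≠ 0 → (C c₁ * (f ^ p * e ^ α₁)) * (C c₂ * (g ^ q * e ^ α₂)) *
      (C c₃ * (h ^ r * e ^ α₃)) ∣ T ^ N → D + 2 ≤ T.natDegree := by
    intro T hT h0
    have k1 : radical ((C c₁ * (f ^ p * e ^ α₁)) * (C c₂ * (g ^ q * e ^ α₂)) *
      (C c₃ * (h ^ r * e ^ α₃))) ∣ radical (T ^ N) := radical_dvd_radical h0 (pow_ne_zero _ hT)
    rw [radical_pow T (by omega)] at k1
    have k2 := natDegree_le_of_dvd (k1.trans radical_dvd_self) hT
    omega
  have hunit : ∀ {P T : k[X]}, P ∣ T → C c₁ * C c₂ * C c₃ * P ∣ T := by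
    intro P T h0
    have k1 : IsUnit (C c₁ * C c₂ * C c₃) := ((hCu hc₁).mul (hCu hc₂)).mul (hCu hc₃)
    exact (k1.mul_left_dvd).mpr h0
  -- the inequality for the degrees
  have hbound : p * q * r * (f.natDegree + g.natDegree + h.natDegree) +
      e.natDegree * (α₁ + α₂ + α₃) ≤ p * q * r * D := by
    have e1 : p * q * r * (f.natDegree + g.natDegree + h.natDegree) +
        e.natDegree * (q * r * α₁ + r * p * α₂ + p * q * α₃) =
        q * r * (f.natDegree * p + e.natDegree * α₁) + r * p * (g.natDegree * q + e.natDegree * α₂) +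
        p * q * (h.natDegree * r + e.natDegree * α₃) := by ring
    rw [h₁, h₂, h₃] at e1
    have e2 : q * r * D + r * p * D + p * q * D ≤ p * q * r * D := by
      have := Nat.mul_le_mul_right D hpqr
      calc _ = (q * r + r * p + p * q) * D := by ring
        _ ≤ _ := this
    have e3 : e.natDegree * (α₁ + α₂ + α₃) ≤ e.natDegree * (q * r * α₁ + r * p * α₂ + p * q * α₃) := by
      refine Nat.mul_le_mul_left _ (Nat.add_le_add (Nat.add_le_add ?_ ?_) ?_)
      · exact Nat.le_mul_of_pos_left _ (Nat.mul_pos hq hr)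
      · exact Nat.le_mul_of_pos_left _ (Nat.mul_pos hr hp)
      · exact Nat.le_mul_of_pos_left _ (Nat.mul_pos hp hq)
    omega
  have hpos : 0 < p * q * r := Nat.mul_pos (Nat.mul_pos hp hq) hr
  by_cases hall : α₁ + α₂ + α₃ = 0
  · -- no factor `e`
    have k1 := hrad hfgh0 (by
      have e0 : (C c₁ * (f ^ p * e ^ α₁)) * (C c₂ * (g ^ q * e ^ α₂)) * (C c₃ * (h ^ r * e ^ α₃)) =
          C c₁ * C c₂ * C c₃ * (f ^ p * g ^ q * h ^ r) := by
        have z1 : α₁ = 0 := by omega
        have z2 : α₂ = 0 := by omega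
        have z3 : α₃ = 0 := by omega
        rw [z1, z2, z3]
        ring
      rw [e0]
      apply hunit
      rw [mul_pow, mul_pow]
      exact mul_dvd_mul (mul_dvd_mul (pow_dvd_pow _ (by omega)) (pow_dvd_pow _ (by omega)))
        (pow_dvd_pow _ (by omega)))
    rw [natDegree_mul (mul_ne_zero hf hg) hh, natDegree_mul hf hg] at k1
    have k2 : f.natDegree + g.natDegree + h.natDegree ≤ D :=
      Nat.le_of_mul_le_mul_left ((Nat.le_add_right _ _).trans hbound) hpos
    omega
  · have k1 := hrad (mul_ne_zero hfgh0 he0) (by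
      have e0 : (C c₁ * (f ^ p * e ^ α₁)) * (C c₂ * (g ^ q * e ^ α₂)) * (C c₃ * (h ^ r * e ^ α₃)) =
          C c₁ * C c₂ * C c₃ * (f ^ p * g ^ q * h ^ r * e ^ (α₁ + α₂ + α₃)) := by
        rw [pow_add, pow_add]
        ring
      rw [e0]
      apply hunit
      rw [mul_pow, mul_pow, mul_pow]
      exact mul_dvd_mul (mul_dvd_mul (mul_dvd_mul (pow_dvd_pow _ (by omega))
        (pow_dvd_pow _ (by omega))) (pow_dvd_pow _ (by omega))) (pow_dvd_pow _ (by omega)))
    rw [natDegree_mul hfgh0 he0, natDegree_mul (mul_ne_zero hf hg) hh, natDegree_mul hf hg] at k1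
    have k2 : f.natDegree + g.natDegree + h.natDegree < D := by
      apply Nat.lt_of_mul_lt_mul_left (a := p * q * r)
      have k3 : 0 < e.natDegree * (α₁ + α₂ + α₃) := Nat.mul_pos (by omega) (by omega)
      omega
    omega

end Pool.Agent.Helper4.RC
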