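import Mathlib
import Pool.Agent.Helper4.RC.Denoms
import Pool.Agent.Helper4.RC.Mason

/-!
# Values of rational functions at coprime pairs; bounded exponents
-/

set_option autoImplicit false

namespace Pool.Agent.Helper4.RC

open Polynomial Finset
open Pool.Agent.Helper4.PC (l1)

/-- a nonconstant rational function: numerator and denominator have degree `d` and are coprime -/
structure Fn (d : ℕ) (P S : ℤ[X]) : Prop where
  pos : 1 ≤ d
  num : P.natDegree = d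
  den : S.natDegree = d
  cop : IsCoprime (P.map ι) (S.map ι)

/-- the value at `(u, v)` has absolute value `x` -/
def Val (d : ℕ) (P S : ℤ[X]) (u v : ℤ) (x : ℕ) : Prop :=
  hv d S u v ≠ 0 ∧ (hv d P u v).natAbs = x * (hv d S u v).natAbs

theorem Fn.ne {d : ℕ} {P S : ℤ[X]} (h : Fn d P S) : P ≠ 0 ∧ S ≠ 0 := by
  have h1 := h.pos
  have h2 := h.num
  have h3 := h.den
  constructor
  · rintro rfl; rw [natDegree_zero] at h2; omega
  · rintro rfl; rw [natDegree_zero] at h3; omega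

theorem Val.eq {d : ℕ} {P S : ℤ[X]} {u v : ℤ} {x : ℕ} (h : Val d P S u v x) :
    ∃ X' : ℤ, X'.natAbs = x ∧ hv d P u v = X' * hv d S u v := by
  obtain ⟨h1, h2⟩ := h
  rcases Int.natAbs_eq (hv d P u v) with h3 | h3 <;> rcases Int.natAbs_eq (hv d S u v) with h4 | h4
  · refine ⟨x, Int.natAbs_natCast _, ?_⟩
    rw [h3, h2]
    conv_rhs => rw [h4]
    push_cast
    ring
  · refine ⟨-x, by rw [Int.natAbs_neg, Int.natAbs_natCast], ?_⟩
    rw [h3, h2]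
    conv_rhs => rw [h4]
    push_cast
    ring
  · refine ⟨-x, by rw [Int.natAbs_neg, Int.natAbs_natCast], ?_⟩
    rw [h3, h2]
    conv_rhs => rw [h4]
    push_cast
    ring
  · refine ⟨x, Int.natAbs_natCast _, ?_⟩
    rw [h3, h2]
    conv_rhs => rw [h4]
    push_cast
    ring

/-- the denominators are bounded -/
theorem den_bound {d : ℕ} {P S : ℤ[X]} (h : Fn d P S) : ∃ R : ℕ, 1 ≤ R ∧ ∀ (u v : ℤ) (x : ℕ),
    IsCoprime u v → Val d P S u v x → (hv d S u v).natAbs ≤ R := by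
  obtain ⟨R, hR, hR'⟩ := common h.pos h.num h.den.le h.cop
  refine ⟨R.natAbs, Int.natAbs_pos.mpr hR, fun u v x huv hx => ?_⟩
  obtain ⟨X', -, h1⟩ := hx.eq
  have h2 := hR' u v (hv d S u v) huv (by rw [h1]; exact Dvd.intro_left _ rfl) dvd_rfl
  exact Nat.le_of_dvd (Int.natAbs_pos.mpr hR) (Int.natAbs_dvd_natAbs.mpr h2)

/-- the size of the values -/
theorem val_size {d : ℕ} {P S : ℤ[X]} (h : Fn d P S) : ∃ Q : ℕ, ∀ (u v : ℤ) (x : ℕ),
    IsCoprime u v → Val d P S u v x → 1 ≤ x → (max u.natAbs v.natAbs) ^ d ≤ Q * x ∧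
      x ≤ Q * (max u.natAbs v.natAbs) ^ d := by
  obtain ⟨R, hR1, hR⟩ := den_bound h
  obtain ⟨C₀, hC₀⟩ := size h.pos h.num h.den.le h.cop
  refine ⟨2 * C₀ * R + l1 P, fun u v x huv hx hx1 => ?_⟩
  have h1 := hC₀ u v
  have h2 := hR u v x huv hx
  obtain ⟨h3, h4⟩ := hx
  constructor
  · rw [h4] at h1
    calc (max u.natAbs v.natAbs) ^ d ≤ C₀ * (x * (hv d S u v).natAbs + (hv d S u v).natAbs) := h1
      _ = C₀ * ((x + 1) * (hv d S u v).natAbs) := by ring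
      _ ≤ C₀ * ((2 * x) * R) := Nat.mul_le_mul_left _ (Nat.mul_le_mul (by omega) h2)
      _ = (2 * C₀ * R) * x := by ring
      _ ≤ (2 * C₀ * R + l1 P) * x := Nat.mul_le_mul_right _ (by omega)
  · have h5 := natAbs_hv_le h.num.le (le_max_left u.natAbs v.natAbs) (le_max_right u.natAbs v.natAbs)
    rw [h4] at h5
    calc x ≤ x * (hv d S u v).natAbs := Nat.le_mul_of_pos_right _ (Int.natAbs_pos.mpr h3)
      _ ≤ l1 P * (max u.natAbs v.natAbs) ^ d := h5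
      _ ≤ (2 * C₀ * R + l1 P) * (max u.natAbs v.natAbs) ^ d := Nat.mul_le_mul_right _ (by omega)

/-- bounded parameters from a common factor -/
theorem noncop {d : ℕ} {P S W : ℤ[X]} (h : Fn d P S) (hn : ¬ IsCoprime (P.map ι) (W.map ι)) :
    ∃ (a : ℕ) (E A B : ℤ[X]) (c : ℤ), c ≠ 0 ∧ 1 ≤ a ∧ E.natDegree = a ∧ E * A = C c * P ∧
      E * B = C c * W ∧ ∀ N : ℕ, ∃ T : ℕ, ∀ u v : ℤ, (hv a E u v).natAbs ≤ N →
        (hv d S u v).natAbs ≤ N → max u.natAbs v.natAbs ≤ T := by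
  obtain ⟨E, A, B, c, hc, hE, h1, h2⟩ := common_factor h.ne.1 hn
  refine ⟨E.natDegree, E, A, B, c, hc, hE, rfl, h1, h2, fun N => ?_⟩
  have hcop : IsCoprime (E.map ι) (S.map ι) := by
    have hcq : IsUnit (C (ι c)) := by
      rw [isUnit_C, isUnit_iff_ne_zero, ι_apply]
      exact_mod_cast hc
    have h3 : E.map ι ∣ C (ι c) * P.map ι := by
      refine ⟨A.map ι, ?_⟩
      rw [← Polynomial.map_mul, h1, Polynomial.map_mul, Polynomial.map_C]
    exact ((isCoprime_mul_unit_left_left hcq _ _).mpr h.cop).of_isCoprime_of_dvd_left h3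
  exact bounded hE h.pos rfl h.den hcop N

/-- the numerators are coprime, or the parameters are bounded -/
theorem noncop_num {d₁ d₂ : ℕ} {f₁ f₂ g₁ g₂ : ℤ[X]} (hf : Fn d₁ f₁ f₂) (hg : Fn d₂ g₁ g₂)
    (hn : ¬ IsCoprime (f₁.map ι) (g₁.map ι)) : ∃ T : ℕ, ∀ (u v : ℤ) (x y : ℕ), IsCoprime u v →
      Nat.Coprime x y → Val d₁ f₁ f₂ u v x → Val d₂ g₁ g₂ u v y → max u.natAbs v.natAbs ≤ T := by
  obtain ⟨a, E, A, B, c, hc, ha, hE, h1, h2, h3⟩ := noncop hf hn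
  obtain ⟨R₁, hR₁, k1⟩ := den_bound hf
  obtain ⟨R₂, hR₂, k2⟩ := den_bound hg
  obtain ⟨T, hT⟩ := h3 (c.natAbs * R₁ * R₂ + R₁)
  refine ⟨T, fun u v x y huv hxy hx hy => hT u v ?_ ?_⟩
  swap
  · have := k1 u v x huv hx
    omega
  have hv1 := k1 u v x huv hx
  have hv2 := k2 u v y huv hy
  obtain ⟨X', hX', eX⟩ := hx.eq
  obtain ⟨Y', hY', eY⟩ := hy.eq
  have hf0 := hf.ne.1
  have hg0 := hg.ne.1
  have hdA := factor_degree hc hf0 h1
  have hdB := factor_degree hc hg0 h2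
  rw [hE, hf.num] at hdA
  rw [hE, hg.num] at hdB
  have hd1 : hv a E u v ∣ c * hv d₁ f₁ u v := by
    rw [← hdA, ← hv_C_mul, ← h1, hv_mul hE.le le_rfl]
    exact Dvd.intro _ rfl
  have hd2 : hv a E u v ∣ c * hv d₂ g₁ u v := by
    rw [← hdB, ← hv_C_mul, ← h2, hv_mul hE.le le_rfl]
    exact Dvd.intro _ rfl
  have hXY : IsCoprime X' Y' := by
    rw [Int.isCoprime_iff_gcd_eq_one, Int.gcd_eq_natAbs_gcd_natAbs, hX', hY']
    exact hxy
  obtain ⟨s, t, hst⟩ := hXY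
  have hd3 : hv a E u v ∣ c * hv d₁ f₂ u v * hv d₂ g₂ u v := by
    have e1 : c * hv d₁ f₂ u v * hv d₂ g₂ u v = (s * hv d₂ g₂ u v) * (c * hv d₁ f₁ u v) +
        (t * hv d₁ f₂ u v) * (c * hv d₂ g₁ u v) := by
      rw [eX, eY]
      linear_combination (-(c * hv d₁ f₂ u v * hv d₂ g₂ u v)) * hst
    rw [e1]
    exact dvd_add (Dvd.dvd.mul_left hd1 _) (Dvd.dvd.mul_left hd2 _)
  have hne : c * hv d₁ f₂ u v * hv d₂ g₂ u v ≠ 0 := mul_ne_zero (mul_ne_zero hc hx.1) hy.1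
  have h5 := Nat.le_of_dvd (Int.natAbs_pos.mpr hne) (Int.natAbs_dvd_natAbs.mpr hd3)
  rw [Int.natAbs_mul, Int.natAbs_mul] at h5
  have h6 : c.natAbs * (hv d₁ f₂ u v).natAbs * (hv d₂ g₂ u v).natAbs ≤ c.natAbs * R₁ * R₂ :=
    Nat.mul_le_mul (Nat.mul_le_mul_left _ hv1) hv2
  omega

/-- a numerator is coprime to the other denominators, or the parameters are bounded -/
theorem noncop_den {d₁ d₂ : ℕ} {f₁ f₂ g₁ g₂ : ℤ[X]} (hf : Fn d₁ f₁ f₂) (hg : Fn d₂ g₁ g₂)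
    (hn : ¬ IsCoprime (f₁.map ι) (g₂.map ι)) : ∃ T : ℕ, ∀ (u v : ℤ) (x y : ℕ), IsCoprime u v →
      Val d₁ f₁ f₂ u v x → Val d₂ g₁ g₂ u v y → max u.natAbs v.natAbs ≤ T := by
  obtain ⟨a, E, A, B, c, hc, ha, hE, h1, h2, h3⟩ := noncop hf hn
  obtain ⟨R₁, hR₁, k1⟩ := den_bound hf
  obtain ⟨R₂, hR₂, k2⟩ := den_bound hg
  obtain ⟨T, hT⟩ := h3 (c.natAbs * R₂ + R₁)
  refine ⟨T, fun u v x y huv hx hy => hT u v ?_ ?_⟩
  swap
  · have := k1 u v x huv hx
    omega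
  have hdB := factor_degree hc hg.ne.2 h2
  rw [hE, hg.den] at hdB
  have h4 := hy.1
  have h5 := k2 u v y huv hy
  rw [← hdB] at h4 h5
  have h6 := (factor_value hc hE le_rfl h2 h4 h5).2
  omega

/-- the roots of a nonzero polynomial -/
theorem root_bound {P : ℤ[X]} (hP : P ≠ 0) {D : ℕ} (hD : P.natDegree ≤ D) : ∃ T : ℕ, ∀ u v : ℤ,
    IsCoprime u v → v ≠ 0 → hv D P u v = 0 → max u.natAbs v.natAbs ≤ T := by
  have hPq : P.map ι ≠ 0 := (Polynomial.map_ne_zero_iff (f := ι) Int.cast_injective).mpr hP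
  have hfin : {τ : ℚ | (P.map ι).IsRoot τ}.Finite := finite_setOfPred_isRoot hPq
  obtain ⟨T, hT⟩ := (hfin.image fun τ => max τ.num.natAbs τ.den).bddAbove
  refine ⟨T, fun u v huv hv0 h => ?_⟩
  have h1 := hv_cast hD u hv0
  rw [h, Int.cast_zero] at h1
  have hvq : (v : ℚ) ^ D ≠ 0 := pow_ne_zero _ (by exact_mod_cast hv0)
  have h2 : (P.map ι).eval ((u : ℚ) / v) = 0 := (mul_eq_zero.mp h1.symm).resolve_left hvq
  have h3 := hT ⟨(u : ℚ) / v, h2, rfl⟩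
  simp only at h3
  have hgcd : Nat.Coprime u.natAbs v.natAbs := by
    rw [Int.isCoprime_iff_gcd_eq_one, Int.gcd_eq_natAbs_gcd_natAbs] at huv
    exact huv
  rcases lt_trichotomy 0 v with hpos | hz | hneg
  · rw [Rat.num_div_eq_of_coprime hpos hgcd] at h3
    have h4 := Rat.den_div_eq_of_coprime hpos hgcd
    have h5 : ((u : ℚ) / v).den = v.natAbs := by omega
    rwa [h5] at h3
  · exact absurd hz.symm hv0
  · have e1 : ((u : ℚ) / v) = ((-u : ℤ) : ℚ) / ((-v : ℤ) : ℚ) := by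
      push_cast
      rw [neg_div_neg_eq]
    have hpos : 0 < -v := by omega
    have hgcd' : Nat.Coprime (-u).natAbs (-v).natAbs := by rwa [Int.natAbs_neg, Int.natAbs_neg]
    rw [e1, Rat.num_div_eq_of_coprime hpos hgcd', Int.natAbs_neg] at h3
    have h4 := Rat.den_div_eq_of_coprime hpos hgcd'
    have h5 : (((-u : ℤ) : ℚ) / ((-v : ℤ) : ℚ)).den = v.natAbs := by omega
    rwa [h5] at h3

end Pool.Agent.Helper4.RC
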