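import Mathlib
import Pool.Agent.Helper4.RC.Pts
import Pool.Agent.Helper4.PC.Consts

/-!
# Bounded exponents
-/

set_option autoImplicit false

namespace Pool.Agent.Helper4.RC

open Polynomial Finset
open Pool.Agent.Helper4.PC (l1 Sol)

/-- the polynomial of three fixed exponents -/
noncomputable def pol (f₁ f₂ g₁ g₂ h₁ h₂ : ℤ[X]) (p q r : ℕ) (σ₁ σ₂ σ₃ : ℤ) : ℤ[X] :=
  C σ₁ * (f₁ ^ p * (g₂ ^ q * h₂ ^ r)) + C σ₂ * (g₁ ^ q * (f₂ ^ p * h₂ ^ r)) +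
    C σ₃ * (h₁ ^ r * (f₂ ^ p * g₂ ^ q))

theorem pol_ne {d₁ d₂ d₃ : ℕ} {f₁ f₂ g₁ g₂ h₁ h₂ : ℤ[X]} (hf : Fn d₁ f₁ f₂) (hg : Fn d₂ g₁ g₂)
    (hh : Fn d₃ h₁ h₂) (cfg : IsCoprime (f₁.map ι) (g₁.map ι)) {e : ℚ[X]} {k₁ k₂ k₃ : ℕ}
    {κ₁ κ₂ κ₃ : ℚ} (hκ₁ : κ₁ ≠ 0) (hκ₂ : κ₂ ≠ 0) (hκ₃ : κ₃ ≠ 0) (he1 : 1 ≤ e.natDegree)
    (he2 : e.natDegree ≤ 2) (ef : f₂.map ι = C κ₁ * e ^ k₁) (eg : g₂.map ι = C κ₂ * e ^ k₂)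
    (eh : h₂.map ι = C κ₃ * e ^ k₃) {p q r : ℕ} (hp : 0 < p) (hq : 0 < q) (hr : 0 < r)
    (hpqr : q * r + r * p + p * q ≤ p * q * r) {σ₁ σ₂ σ₃ : ℤ} (hσ₁ : σ₁ ≠ 0) (hσ₂ : σ₂ ≠ 0)
    (hσ₃ : σ₃ ≠ 0) : pol f₁ f₂ g₁ g₂ h₁ h₂ p q r σ₁ σ₂ σ₃ ≠ 0 := by
  classical
  intro h0
  have hinj : Function.Injective ι := Int.cast_injective
  have he0 : e ≠ 0 := by rintro rfl; rw [natDegree_zero] at he1; omega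
  have hdk : ∀ {d k : ℕ} {P S : ℤ[X]} {κ : ℚ}, Fn d P S → κ ≠ 0 → S.map ι = C κ * e ^ k →
      d = e.natDegree * k := by
    intro d k P S κ h1 h2 h3
    rw [← h1.den, ← natDegree_ι S, h3, natDegree_C_mul h2, natDegree_pow, mul_comm]
  have dk₁ := hdk hf hκ₁ ef
  have dk₂ := hdk hg hκ₂ eg
  have dk₃ := hdk hh hκ₃ eh
  have hkpos : ∀ {d k : ℕ} {P S : ℤ[X]}, Fn d P S → d = e.natDegree * k → 1 ≤ k := by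
    intro d k P S h1 h2
    by_contra hcon
    have h3 : k = 0 := by omega
    rw [h3, mul_zero] at h2
    have := h1.pos
    omega
  have kp₁ := hkpos hf dk₁
  -- `e` is coprime to the numerators
  have hce : ∀ {d k : ℕ} {P S : ℤ[X]} {κ : ℚ}, Fn d P S → κ ≠ 0 → S.map ι = C κ * e ^ k →
      IsCoprime e (P.map ι) := by
    intro d k P S κ h1 h2 h3
    have h4 := h1.cop.symm
    have h5 := hkpos h1 (hdk h1 h2 h3)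
    rw [h3] at h4
    exact h4.of_isCoprime_of_dvd_left (Dvd.dvd.mul_left (dvd_pow_self e (by omega)) _)
  have cef := hce hf hκ₁ ef
  have ceg := hce hg hκ₂ eg
  have ceh := hce hh hκ₃ eh
  obtain ⟨m₁, hm₁⟩ : ∃ m, m = k₁ * p := ⟨_, rfl⟩
  obtain ⟨m₂, hm₂⟩ : ∃ m, m = k₂ * q := ⟨_, rfl⟩
  obtain ⟨m₃, hm₃⟩ : ∃ m, m = k₃ * r := ⟨_, rfl⟩
  obtain ⟨mx, hmx⟩ : ∃ m, m = max m₁ (max m₂ m₃) := ⟨_, rfl⟩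
  obtain ⟨s, hs⟩ : ∃ s, s = m₁ + m₂ + m₃ - mx := ⟨_, rfl⟩
  have hm₁pos : 1 ≤ m₁ := by rw [hm₁]; exact Nat.mul_pos kp₁ hp
  have hne : ∀ P : ℤ[X], P ≠ 0 → P.map ι ≠ 0 := fun P hP => (Polynomial.map_ne_zero_iff hinj).mpr hP
  have hpow : ∀ {k q : ℕ} {κ : ℚ} {S : ℤ[X]}, S.map ι = C κ * e ^ k →
      (S.map ι) ^ q = C (κ ^ q) * e ^ (k * q) := by
    intro k q κ S h1
    rw [h1, mul_pow, ← pow_mul, C_pow]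
  have hid0 : (pol f₁ f₂ g₁ g₂ h₁ h₂ p q r σ₁ σ₂ σ₃).map ι = 0 := by rw [h0, Polynomial.map_zero]
  rw [pol] at hid0
  simp only [Polynomial.map_add, Polynomial.map_mul, Polynomial.map_pow, Polynomial.map_C, ι_apply,
    hpow ef, hpow eg, hpow eh, ← hm₁, ← hm₂, ← hm₃] at hid0
  have e1 : m₂ + m₃ = s + (mx - m₁) := by omega
  have e2 : m₁ + m₃ = s + (mx - m₂) := by omega
  have e3 : m₁ + m₂ = s + (mx - m₃) := by omega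
  have hid : C ((σ₁ : ℚ) * κ₂ ^ q * κ₃ ^ r) * ((f₁.map ι) ^ p * e ^ (mx - m₁)) +
      C ((σ₂ : ℚ) * κ₁ ^ p * κ₃ ^ r) * ((g₁.map ι) ^ q * e ^ (mx - m₂)) +
      C ((σ₃ : ℚ) * κ₁ ^ p * κ₂ ^ q) * ((h₁.map ι) ^ r * e ^ (mx - m₃)) = 0 := by
    apply mul_left_cancel₀ (pow_ne_zero s he0)
    rw [mul_zero, ← hid0]
    have k1 : e ^ m₂ * e ^ m₃ = e ^ s * e ^ (mx - m₁) := by rw [← pow_add, e1, pow_add]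
    have k2 : e ^ m₁ * e ^ m₃ = e ^ s * e ^ (mx - m₂) := by rw [← pow_add, e2, pow_add]
    have k3 : e ^ m₁ * e ^ m₂ = e ^ s * e ^ (mx - m₃) := by rw [← pow_add, e3, pow_add]
    simp only [C_mul]
    linear_combination (-(C (σ₁ : ℚ) * (f₁.map ι) ^ p * C (κ₂ ^ q) * C (κ₃ ^ r))) * k1 +
      (-(C (σ₂ : ℚ) * (g₁.map ι) ^ q * C (κ₁ ^ p) * C (κ₃ ^ r))) * k2 +
      (-(C (σ₃ : ℚ) * (h₁.map ι) ^ r * C (κ₁ ^ p) * C (κ₂ ^ q))) * k3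
  have hσq : ∀ {σ : ℤ}, σ ≠ 0 → (σ : ℚ) ≠ 0 := fun h => by exact_mod_cast h
  refine no_identity (f := f₁.map ι) (g := g₁.map ι) (h := h₁.map ι) (e := e)
    (c₁ := (σ₁ : ℚ) * κ₂ ^ q * κ₃ ^ r) (c₂ := (σ₂ : ℚ) * κ₁ ^ p * κ₃ ^ r)
    (c₃ := (σ₃ : ℚ) * κ₁ ^ p * κ₂ ^ q) (p := p) (q := q) (r := r) (α₁ := mx - m₁) (α₂ := mx - m₂)
    (α₃ := mx - m₃) (D := e.natDegree * mx)
    (mul_ne_zero (mul_ne_zero (hσq hσ₁) (pow_ne_zero _ hκ₂)) (pow_ne_zero _ hκ₃))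
    (mul_ne_zero (mul_ne_zero (hσq hσ₂) (pow_ne_zero _ hκ₁)) (pow_ne_zero _ hκ₃))
    (mul_ne_zero (mul_ne_zero (hσq hσ₃) (pow_ne_zero _ hκ₁)) (pow_ne_zero _ hκ₂))
    (hne _ hf.ne.1) (hne _ hg.ne.1) (hne _ hh.ne.1) he1 he2 cfg cef ceg ceh
    (Nat.mul_pos he1 (by omega)) hp hq hr hpqr (by omega) ?_ ?_ ?_ hid
  · rw [natDegree_ι, hf.num, dk₁, mul_assoc, ← hm₁, ← Nat.mul_add]
    congr 1
    omega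
  · rw [natDegree_ι, hg.num, dk₂, mul_assoc, ← hm₂, ← Nat.mul_add]
    congr 1
    omega
  · rw [natDegree_ι, hh.num, dk₃, mul_assoc, ← hm₃, ← Nat.mul_add]
    congr 1
    omega

theorem hv_pol {d₁ d₂ d₃ : ℕ} {f₁ f₂ g₁ g₂ h₁ h₂ : ℤ[X]} (hf : Fn d₁ f₁ f₂) (hg : Fn d₂ g₁ g₂)
    (hh : Fn d₃ h₁ h₂) (p q r : ℕ) (σ₁ σ₂ σ₃ : ℤ) (u v : ℤ) :
    (pol f₁ f₂ g₁ g₂ h₁ h₂ p q r σ₁ σ₂ σ₃).natDegree ≤ p * d₁ + (q * d₂ + r * d₃) ∧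
    hv (p * d₁ + (q * d₂ + r * d₃)) (pol f₁ f₂ g₁ g₂ h₁ h₂ p q r σ₁ σ₂ σ₃) u v =
      σ₁ * (hv d₁ f₁ u v ^ p * (hv d₂ g₂ u v ^ q * hv d₃ h₂ u v ^ r)) +
      σ₂ * (hv d₂ g₁ u v ^ q * (hv d₁ f₂ u v ^ p * hv d₃ h₂ u v ^ r)) +
      σ₃ * (hv d₃ h₁ u v ^ r * (hv d₁ f₂ u v ^ p * hv d₂ g₂ u v ^ q)) := by
  have key : ∀ {a b c : ℕ} {P S W : ℤ[X]} {i j l : ℕ}, P.natDegree = a → S.natDegree = b →
      W.natDegree = c → (P ^ i * (S ^ j * W ^ l)).natDegree ≤ i * a + (j * b + l * c) ∧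
      hv (i * a + (j * b + l * c)) (P ^ i * (S ^ j * W ^ l)) u v =
        hv a P u v ^ i * (hv b S u v ^ j * hv c W u v ^ l) := by
    intro a b c P S W i j l h1 h2 h3
    have k1 : (P ^ i).natDegree ≤ i * a := by rw [natDegree_pow, h1]
    have k2 : (S ^ j).natDegree ≤ j * b := by rw [natDegree_pow, h2]
    have k3 : (W ^ l).natDegree ≤ l * c := by rw [natDegree_pow, h3]
    have k4 : (S ^ j * W ^ l).natDegree ≤ j * b + l * c :=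
      natDegree_mul_le.trans (Nat.add_le_add k2 k3)
    refine ⟨natDegree_mul_le.trans (Nat.add_le_add k1 k4), ?_⟩
    rw [hv_mul k1 k4, hv_mul k2 k3, hv_pow h1.le, hv_pow h2.le, hv_pow h3.le]
  obtain ⟨a1, b1⟩ := key (i := p) (j := q) (l := r) hf.num hg.den hh.den
  obtain ⟨a2, b2⟩ := key (i := q) (j := p) (l := r) hg.num hf.den hh.den
  obtain ⟨a3, b3⟩ := key (i := r) (j := p) (l := q) hh.num hf.den hg.den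
  have e2 : q * d₂ + (p * d₁ + r * d₃) = p * d₁ + (q * d₂ + r * d₃) := by ring
  have e3 : r * d₃ + (p * d₁ + q * d₂) = p * d₁ + (q * d₂ + r * d₃) := by ring
  rw [e2] at a2 b2
  rw [e3] at a3 b3
  constructor
  · rw [pol]
    refine (natDegree_add_le _ _).trans (max_le ((natDegree_add_le _ _).trans (max_le ?_ ?_)) ?_)
    · exact (natDegree_C_mul_le _ _).trans a1
    · exact (natDegree_C_mul_le _ _).trans a2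
    · exact (natDegree_C_mul_le _ _).trans a3
  · rw [pol, hv_add, hv_add, hv_C_mul, hv_C_mul, hv_C_mul, b1, b2, b3]

/-- a power of an integer and of its absolute value -/
theorem sign_pow {X' : ℤ} {x : ℕ} (h : X'.natAbs = x) (p : ℕ) :
    ∃ σ : ℤ, (σ = 1 ∨ σ = -1) ∧ (x : ℤ) ^ p = σ * X' ^ p := by
  rcases Int.natAbs_eq X' with h1 | h1
  · refine ⟨1, Or.inl rfl, ?_⟩
    rw [h] at h1
    rw [h1, one_mul]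
  · rw [h] at h1
    refine ⟨(-1) ^ p, neg_one_pow_eq_or ℤ p, ?_⟩
    rw [h1, neg_pow (x : ℤ), ← mul_assoc, ← mul_pow]
    norm_num

/-- **Bounded exponents.** -/
theorem small_exps {d₁ d₂ d₃ : ℕ} {f₁ f₂ g₁ g₂ h₁ h₂ : ℤ[X]} (hf : Fn d₁ f₁ f₂) (hg : Fn d₂ g₁ g₂)
    (hh : Fn d₃ h₁ h₂) (cfg : IsCoprime (f₁.map ι) (g₁.map ι)) {e : ℚ[X]} {k₁ k₂ k₃ : ℕ}
    {κ₁ κ₂ κ₃ : ℚ} (hκ₁ : κ₁ ≠ 0) (hκ₂ : κ₂ ≠ 0) (hκ₃ : κ₃ ≠ 0) (he1 : 1 ≤ e.natDegree)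
    (he2 : e.natDegree ≤ 2) (ef : f₂.map ι = C κ₁ * e ^ k₁) (eg : g₂.map ι = C κ₂ * e ^ k₂)
    (eh : h₂.map ι = C κ₃ * e ^ k₃) (N : ℕ) : ∃ T : ℕ, ∀ (u v : ℤ) (x y z p q r : ℕ),
      IsCoprime u v → v ≠ 0 → Sol x y z p q r → Val d₁ f₁ f₂ u v x → Val d₂ g₁ g₂ u v y →
      Val d₃ h₁ h₂ u v z → p < N → q < N → r < N → max u.natAbs v.natAbs ≤ T := by
  classical
  have hT : ∀ i : (ℕ × ℕ × ℕ) × (ℤ × ℤ × ℤ), ∃ T : ℕ,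
      (0 < i.1.1 → 0 < i.1.2.1 → 0 < i.1.2.2 → i.1.2.1 * i.1.2.2 + i.1.2.2 * i.1.1 + i.1.1 * i.1.2.1 ≤
        i.1.1 * i.1.2.1 * i.1.2.2 → i.2.1 ≠ 0 → i.2.2.1 ≠ 0 → i.2.2.2 ≠ 0 →
      ∀ u v : ℤ, IsCoprime u v → v ≠ 0 → hv (i.1.1 * d₁ + (i.1.2.1 * d₂ + i.1.2.2 * d₃))
        (pol f₁ f₂ g₁ g₂ h₁ h₂ i.1.1 i.1.2.1 i.1.2.2 i.2.1 i.2.2.1 i.2.2.2) u v = 0 →
        max u.natAbs v.natAbs ≤ T) := by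
    intro i
    by_cases hv' : 0 < i.1.1 ∧ 0 < i.1.2.1 ∧ 0 < i.1.2.2 ∧
        i.1.2.1 * i.1.2.2 + i.1.2.2 * i.1.1 + i.1.1 * i.1.2.1 ≤ i.1.1 * i.1.2.1 * i.1.2.2 ∧
        i.2.1 ≠ 0 ∧ i.2.2.1 ≠ 0 ∧ i.2.2.2 ≠ 0
    · obtain ⟨a1, a2, a3, a4, a5, a6, a7⟩ := hv'
      obtain ⟨T, hT⟩ := root_bound (pol_ne hf hg hh cfg hκ₁ hκ₂ hκ₃ he1 he2 ef eg eh a1 a2 a3 a4 a5 a6 a7)
        (hv_pol hf hg hh _ _ _ _ _ _ 0 0).1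
      exact ⟨T, fun _ _ _ _ _ _ _ => hT⟩
    · refine ⟨0, fun a1 a2 a3 a4 a5 a6 a7 => ?_⟩
      exact absurd ⟨a1, a2, a3, a4, a5, a6, a7⟩ hv'
  choose T hT using hT
  obtain ⟨I, hI⟩ : ∃ I : Finset ((ℕ × ℕ × ℕ) × (ℤ × ℤ × ℤ)), I = (range N ×ˢ range N ×ˢ range N) ×ˢ
    (({1, -1} : Finset ℤ) ×ˢ ({1, -1} : Finset ℤ) ×ˢ ({1, -1} : Finset ℤ)) := ⟨_, rfl⟩
  refine ⟨∑ i ∈ I, T i, fun u v x y z p q r huv hv0 hs hx hy hz hp hq hr => ?_⟩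
  obtain ⟨X', hX', eX⟩ := hx.eq
  obtain ⟨Y, hY, eY⟩ := hy.eq
  obtain ⟨Z, hZ, eZ⟩ := hz.eq
  obtain ⟨σ₁, hσ₁, k1⟩ := sign_pow hX' p
  obtain ⟨σ₂, hσ₂, k2⟩ := sign_pow hY q
  obtain ⟨σ₃, hσ₃, k3⟩ := sign_pow hZ r
  have hineq := hs.ineq
  obtain ⟨-, -, -, -, hp0, hq0, hr0, -, heq⟩ := hs
  have heqZ : (x : ℤ) ^ p + (y : ℤ) ^ q = (z : ℤ) ^ r := by exact_mod_cast heq
  have hσ3' : -σ₃ = 1 ∨ -σ₃ = -1 := by rcases hσ₃ with h | h <;> rw [h] <;> simp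
  have hmem : ((p, q, r), (σ₁, σ₂, -σ₃)) ∈ I := by
    rw [hI]
    simp only [Finset.mem_product, mem_range, mem_insert, mem_singleton]
    exact ⟨⟨hp, hq, hr⟩, hσ₁, hσ₂, hσ3'⟩
  have hne : ∀ {σ : ℤ}, (σ = 1 ∨ σ = -1) → σ ≠ 0 := by
    intro σ h
    rcases h with h | h <;> rw [h] <;> norm_num
  refine (hT ((p, q, r), (σ₁, σ₂, -σ₃)) hp0 hq0 hr0 hineq (hne hσ₁) (hne hσ₂) (hne hσ3') u v huv hv0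
    ?_).trans (Finset.single_le_sum (f := T) (fun _ _ => Nat.zero_le _) hmem)
  simp only
  rw [(hv_pol hf hg hh p q r σ₁ σ₂ (-σ₃) u v).2, eX, eY, eZ]
  rw [k1, k2, k3] at heqZ
  linear_combination (hv d₁ f₂ u v ^ p * hv d₂ g₂ u v ^ q * hv d₃ h₂ u v ^ r) * heqZ

end Pool.Agent.Helper4.RC
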