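import Mathlib
import Pool.Agent.Helper4.RC.SmallE
import Pool.Agent.Helper4.RC.Large

/-!
# Only finitely many parameters
-/

set_option autoImplicit false

namespace Pool.Agent.Helper4.RC

open Polynomial Finset
open Pool.Agent.Helper4.PC (l1 Sol exps_small)

theorem unit_of {σ : ℤ} (h : σ = 1 ∨ σ = -1) : σ.natAbs = 1 ∧ σ * σ = 1 := by
  rcases h with h | h <;> rw [h] <;> norm_num

theorem cop_of {X' Z : ℤ} {x z : ℕ} (hX : X'.natAbs = x) (hZ : Z.natAbs = z) (h : Nat.Coprime x z) :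
    IsCoprime X' Z := by
  rw [Int.isCoprime_iff_gcd_eq_one, Int.gcd_eq_natAbs_gcd_natAbs, hX, hZ]
  exact h

/-- **Only finitely many parameters.** -/
theorem main_fin {d₁ d₂ d₃ : ℕ} {f₁ f₂ g₁ g₂ h₁ h₂ : ℤ[X]} (hf : Fn d₁ f₁ f₂) (hg : Fn d₂ g₁ g₂)
    (hh : Fn d₃ h₁ h₂) : ∃ T : ℕ, ∀ (u v : ℤ) (x y z p q r : ℕ), IsCoprime u v → v ≠ 0 →
      Sol x y z p q r → Val d₁ f₁ f₂ u v x → Val d₂ g₁ g₂ u v y → Val d₃ h₁ h₂ u v z →
      max u.natAbs v.natAbs ≤ T := by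
  -- coprimality
  by_cases cfg : IsCoprime (f₁.map ι) (g₁.map ι)
  swap
  · obtain ⟨T, hT⟩ := noncop_num hf hg cfg
    exact ⟨T, fun u v x y z p q r huv _ hs hx hy _ => hT u v x y huv hs.coprimes.1 hx hy⟩
  by_cases cfh : IsCoprime (f₁.map ι) (h₁.map ι)
  swap
  · obtain ⟨T, hT⟩ := noncop_num hf hh cfh
    exact ⟨T, fun u v x y z p q r huv _ hs hx _ hz => hT u v x z huv hs.coprimes.2.1 hx hz⟩
  by_cases cgh : IsCoprime (g₁.map ι) (h₁.map ι)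
  swap
  · obtain ⟨T, hT⟩ := noncop_num hg hh cgh
    exact ⟨T, fun u v x y z p q r huv _ hs _ hy hz => hT u v y z huv hs.coprimes.2.2 hy hz⟩
  by_cases cfg₂ : IsCoprime (f₁.map ι) (g₂.map ι)
  swap
  · obtain ⟨T, hT⟩ := noncop_den hf hg cfg₂
    exact ⟨T, fun u v x y z p q r huv _ _ hx hy _ => hT u v x y huv hx hy⟩
  by_cases cfh₂ : IsCoprime (f₁.map ι) (h₂.map ι)
  swap
  · obtain ⟨T, hT⟩ := noncop_den hf hh cfh₂
    exact ⟨T, fun u v x y z p q r huv _ _ hx _ hz => hT u v x z huv hx hz⟩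
  by_cases cgf₂ : IsCoprime (g₁.map ι) (f₂.map ι)
  swap
  · obtain ⟨T, hT⟩ := noncop_den hg hf cgf₂
    exact ⟨T, fun u v x y z p q r huv _ _ hx hy _ => hT u v y x huv hy hx⟩
  by_cases cgh₂ : IsCoprime (g₁.map ι) (h₂.map ι)
  swap
  · obtain ⟨T, hT⟩ := noncop_den hg hh cgh₂
    exact ⟨T, fun u v x y z p q r huv _ _ _ hy hz => hT u v y z huv hy hz⟩
  by_cases chf₂ : IsCoprime (h₁.map ι) (f₂.map ι)
  swap
  · obtain ⟨T, hT⟩ := noncop_den hh hf chf₂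
    exact ⟨T, fun u v x y z p q r huv _ _ hx _ hz => hT u v z x huv hz hx⟩
  by_cases chg₂ : IsCoprime (h₁.map ι) (g₂.map ι)
  swap
  · obtain ⟨T, hT⟩ := noncop_den hh hg chg₂
    exact ⟨T, fun u v x y z p q r huv _ _ _ hy hz => hT u v z y huv hz hy⟩
  -- constants
  obtain ⟨R₁, -, hR₁⟩ := den_bound hf
  obtain ⟨R₂, -, hR₂⟩ := den_bound hg
  obtain ⟨R₃, -, hR₃⟩ := den_bound hh
  obtain ⟨R, hR⟩ : ∃ R, R = R₁ + R₂ + R₃ := ⟨_, rfl⟩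
  -- the denominators
  rcases denoms (f := f₂) (g := g₂) (h := h₂) (by rw [hf.den]; exact hf.pos)
    (by rw [hg.den]; exact hg.pos) (by rw [hh.den]; exact hh.pos) R with
    ⟨e, k₁, k₂, k₃, κ₁, κ₂, κ₃, hκ₁, hκ₂, hκ₃, he1, he2, ef, eg, eh⟩ | ⟨T, hT⟩
  swap
  · refine ⟨T, fun u v x y z p q r huv _ _ hx hy hz => ?_⟩
    have b1 := hR₁ u v x huv hx
    have b2 := hR₂ u v y huv hy
    have b3 := hR₃ u v z huv hz
    rw [hf.den, hg.den, hh.den] at hT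
    exact hT u v huv hx.1 (by omega) hy.1 (by omega) hz.1 (by omega)
  obtain ⟨K, hK⟩ : ∃ K, K = d₁ + d₂ + d₃ := ⟨_, rfl⟩
  have p1 := hf.pos
  have p2 := hg.pos
  have p3 := hh.pos
  have hK1 : 1 ≤ K := by omega
  obtain ⟨T₀, hT₀⟩ := small_exps hf hg hh cfg hκ₁ hκ₂ hκ₃ he1 he2 ef eg eh (1188 * K ^ 4)
  obtain ⟨T₁, hT₁⟩ := large hK1 p1 (by omega) p2 (by omega) p3 (by omega) hf.num hf.den hg.num hg.den
    hh.num hh.den hf.cop cfg cfg₂ cfh cfh₂ hg.cop cgh hh.cop R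
  obtain ⟨T₂, hT₂⟩ := large hK1 p2 (by omega) p1 (by omega) p3 (by omega) hg.num hg.den hf.num hf.den
    hh.num hh.den hg.cop cfg.symm cgf₂ cgh cgh₂ hf.cop cfh hh.cop R
  obtain ⟨T₃, hT₃⟩ := large hK1 p3 (by omega) p1 (by omega) p2 (by omega) hh.num hh.den hf.num hf.den
    hg.num hg.den hh.cop cfh.symm chf₂ cgh.symm chg₂ hf.cop cfg hg.cop R
  obtain ⟨T₄, hT₄⟩ := exps_small (K + 1) (600 * K ^ 4)
  obtain ⟨Q₁, hQ₁⟩ := val_size hf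
  obtain ⟨Q₂, hQ₂⟩ := val_size hg
  obtain ⟨Q₃, hQ₃⟩ := val_size hh
  refine ⟨T₀ + T₁ + T₂ + T₃ + T₄ + Q₁ + Q₂ + Q₃ + 1, fun u v x y z p q r huv hv0 hs hx hy hz => ?_⟩
  by_contra hcon
  push Not at hcon
  obtain ⟨t, ht⟩ : ∃ t, t = max u.natAbs v.natAbs := ⟨_, rfl⟩
  rw [← ht] at hcon
  have hK4 : K ≤ K ^ 4 := Nat.le_self_pow (by norm_num) K
  have hlow : ∀ {d Q x : ℕ} {P S : ℤ[X]}, Fn d P S → Q < t → t ^ d ≤ Q * x → 2 ≤ x := by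
    intro d Q x P S hF hQt h
    by_contra hlt
    have h1 : t ≤ t ^ d := Nat.le_self_pow (by have := hF.pos; omega) t
    have h2 : Q * x ≤ Q * 1 := Nat.mul_le_mul_left _ (by omega)
    omega
  have hup : ∀ {d Q x : ℕ}, d ≤ K → Q < t → x ≤ Q * t ^ d → x ≤ t ^ (K + 1) := by
    intro d Q x hd hQt h
    calc x ≤ Q * t ^ d := h
      _ ≤ t * t ^ K := Nat.mul_le_mul (by omega) (Nat.pow_le_pow_right (by omega) hd)
      _ = t ^ (K + 1) := by ring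
  obtain ⟨hx0, hy0, hz0, -, hp0, hq0, hr0, -, heq⟩ := id hs
  have sx := hQ₁ u v x huv hx hx0
  have sy := hQ₂ u v y huv hy hy0
  have sz := hQ₃ u v z huv hz hz0
  rw [← ht] at sx sy sz
  have hE := hT₄ t (by omega) x y z p q r hs (hlow hf (by omega) sx.1) (hlow hg (by omega) sy.1)
    (hup (by omega) (by omega) sx.2) (hup (by omega) (by omega) sy.2) (hup (by omega) (by omega) sz.2)
  have hE' : ∀ e : ℕ, 0 < e → (e = p ∨ e = q ∨ e = r) → (600 * K ^ 4 * e) ^ (40 * K) ≤ t := by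
    intro e he0 he
    refine (Nat.pow_le_pow_right ?_ (by omega)).trans (hE e he)
    exact Nat.mul_pos (by omega) he0
  have b1 := hR₁ u v x huv hx
  have b2 := hR₂ u v y huv hy
  have b3 := hR₃ u v z huv hz
  obtain ⟨X', hX', eX⟩ := hx.eq
  obtain ⟨Y, hY, eY⟩ := hy.eq
  obtain ⟨Z, hZ, eZ⟩ := hz.eq
  obtain ⟨s₁, hs₁, k1⟩ := sign_pow hX' p
  obtain ⟨s₂, hs₂, k2⟩ := sign_pow hY q
  obtain ⟨s₃, hs₃, k3⟩ := sign_pow hZ r
  have heqZ : (x : ℤ) ^ p + (y : ℤ) ^ q = (z : ℤ) ^ r := by exact_mod_cast heq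
  rw [k1, k2, k3] at heqZ
  have u1 := unit_of hs₁
  have u2 := unit_of hs₂
  have u3 := unit_of hs₃
  have hX0 : X' ≠ 0 := by rintro rfl; rw [Int.natAbs_zero] at hX'; omega
  have hY0 : Y ≠ 0 := by rintro rfl; rw [Int.natAbs_zero] at hY; omega
  have hZ0 : Z ≠ 0 := by rintro rfl; rw [Int.natAbs_zero] at hZ; omega
  obtain ⟨cxy, cxz, cyz⟩ := hs.coprimes
  have hmul : ∀ {a b : ℤ}, a.natAbs = 1 → b.natAbs = 1 → (a * b).natAbs = 1 := by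
    intro a b h1 h2
    rw [Int.natAbs_mul, h1, h2]
  have hneg : ∀ {a : ℤ}, a.natAbs = 1 → (-a).natAbs = 1 := by
    intro a h1
    rw [Int.natAbs_neg, h1]
  by_cases hpbig : 1188 * K ^ 4 ≤ p ∧ q ≤ p ∧ r ≤ p
  · exact hT₁ u v t ht (by omega) hv0 X' Y Z (s₂ * s₃) (-(s₂ * s₁)) p q r eX hx.1 (by omega) eY hy.1
      (by omega) eZ hz.1 (by omega) hX0 hY0 hZ0 (hmul u2.1 u3.1) (hneg (hmul u2.1 u1.1))
      (by linear_combination s₂ * heqZ - Y ^ q * u2.2) (cop_of hX' hZ cxz) hq0 hr0 hpbig.2.1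
      hpbig.2.2 hpbig.1 (hE' p hp0 (Or.inl rfl))
  by_cases hqbig : 1188 * K ^ 4 ≤ q ∧ p ≤ q ∧ r ≤ q
  · exact hT₂ u v t ht (by omega) hv0 Y X' Z (s₁ * s₃) (-(s₁ * s₂)) q p r eY hy.1 (by omega) eX hx.1
      (by omega) eZ hz.1 (by omega) hY0 hX0 hZ0 (hmul u1.1 u3.1) (hneg (hmul u1.1 u2.1))
      (by linear_combination s₁ * heqZ - X' ^ p * u1.2) (cop_of hY hZ cyz) hp0 hr0 hqbig.2.1
      hqbig.2.2 hqbig.1 (hE' q hq0 (Or.inr (Or.inl rfl)))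
  by_cases hrbig : 1188 * K ^ 4 ≤ r ∧ p ≤ r ∧ q ≤ r
  · exact hT₃ u v t ht (by omega) hv0 Z X' Y (-(s₁ * s₂)) (s₁ * s₃) r p q eZ hz.1 (by omega) eX hx.1
      (by omega) eY hy.1 (by omega) hZ0 hX0 hY0 (hneg (hmul u1.1 u2.1)) (hmul u1.1 u3.1)
      (by linear_combination s₁ * heqZ - X' ^ p * u1.2) (cop_of hZ hY cyz.symm) hp0 hq0 hrbig.2.1
      hrbig.2.2 hrbig.1 (hE' r hr0 (Or.inr (Or.inr rfl)))
  have hsm := hT₀ u v x y z p q r huv hv0 hs hx hy hz (by omega) (by omega) (by omega)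
  omega

end Pool.Agent.Helper4.RC
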