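import Mathlib
import Pool.Agent.Helper4.RC.Fin

/-!
# Rational functions at rational arguments
-/

set_option autoImplicit false

namespace Pool.Agent.Helper4.RC

open Polynomial Finset
open Pool.Agent.Helper4.PC (l1 Sol finite_of_bases)

/-- integral numerator and denominator -/
structure Rep (f : RatFunc ℚ) (d : ℕ) (P S : ℤ[X]) : Prop where
  pos : 1 ≤ d
  numd : P.natDegree ≤ d
  dend : S.natDegree ≤ d
  full : P.natDegree = d ∨ S.natDegree = d
  num0 : P ≠ 0
  den0 : S ≠ 0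
  cop : IsCoprime (P.map ι) (S.map ι)
  val : ∃ D : ℚ, D ≠ 0 ∧ P.map ι = C D * f.num ∧ S.map ι = C D * f.denom

theorem exists_rep {f : RatFunc ℚ} (hf : ∀ c, f ≠ RatFunc.C c) : ∃ d P S, Rep f d P S := by
  obtain ⟨D₁, P, hD₁, hP⟩ := clear f.num
  obtain ⟨D₂, S, hD₂, hS⟩ := clear f.denom
  have hD₁q : (D₁ : ℚ) ≠ 0 := by exact_mod_cast hD₁
  have hD₂q : (D₂ : ℚ) ≠ 0 := by exact_mod_cast hD₂
  have hnum0 : f.num ≠ 0 := by
    intro h0
    have h1 := RatFunc.num_div_denom f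
    rw [h0, map_zero, zero_div] at h1
    apply hf 0
    rw [← h1, map_zero]
  have hden0 : f.denom ≠ 0 := RatFunc.denom_ne_zero f
  obtain ⟨d, hd⟩ : ∃ d, d = max f.num.natDegree f.denom.natDegree := ⟨_, rfl⟩
  have e1 : (C D₂ * P).map ι = C ((D₁ : ℚ) * D₂) * f.num := by
    rw [Polynomial.map_mul, Polynomial.map_C, ι_apply, hP, C_mul]
    ring
  have e2 : (C D₁ * S).map ι = C ((D₁ : ℚ) * D₂) * f.denom := by
    rw [Polynomial.map_mul, Polynomial.map_C, ι_apply, hS, C_mul]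
    ring
  have hDD : (D₁ : ℚ) * D₂ ≠ 0 := mul_ne_zero hD₁q hD₂q
  have n1 : (C D₂ * P).natDegree = f.num.natDegree := by
    rw [← natDegree_ι, e1, natDegree_C_mul hDD]
  have n2 : (C D₁ * S).natDegree = f.denom.natDegree := by
    rw [← natDegree_ι, e2, natDegree_C_mul hDD]
  have hinj : Function.Injective ι := Int.cast_injective
  have hu : IsUnit (C ((D₁ : ℚ) * D₂)) := isUnit_C.mpr (isUnit_iff_ne_zero.mpr hDD)
  refine ⟨d, C D₂ * P, C D₁ * S, ?_, by omega, by omega, by omega, ?_, ?_, ?_, _, hDD, e1, e2⟩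
  · by_contra hcon
    have k1 : f.num.natDegree = 0 := by omega
    have k2 : f.denom.natDegree = 0 := by omega
    have k3 := RatFunc.num_div_denom f
    have k4 : f.denom = 1 := (RatFunc.monic_denom f).natDegree_eq_zero.mp k2
    rw [eq_C_of_natDegree_eq_zero k1, k4, map_one, div_one] at k3
    exact hf (f.num.coeff 0) (k3.symm.trans (RatFunc.algebraMap_C _))
  · intro h0
    rw [h0, Polynomial.map_zero] at e1
    exact mul_ne_zero hu.ne_zero hnum0 e1.symm
  · intro h0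
    rw [h0, Polynomial.map_zero] at e2
    exact mul_ne_zero hu.ne_zero hden0 e2.symm
  · rw [e1, e2, isCoprime_mul_unit_left_left hu, isCoprime_mul_unit_left_right hu]
    exact RatFunc.isCoprime_num_denom f

/-- the change of variable `t = k + 1 / s` -/
noncomputable def mob (d : ℕ) (k : ℤ) (P : ℤ[X]) : ℤ[X] := reflect d (P.comp (X + C k))

theorem natDegree_comp_X_add (P : ℤ[X]) (k : ℤ) : (P.comp (X + C k)).natDegree = P.natDegree := by
  rw [natDegree_comp, natDegree_X_add_C, mul_one]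

theorem natDegree_mob {d : ℕ} {k : ℤ} {P : ℤ[X]} (hP : P.natDegree ≤ d) (hk : P.eval k ≠ 0) :
    (mob d k P).natDegree = d := by
  refine le_antisymm (natDegree_reflect_le' (by rw [natDegree_comp_X_add]; exact hP)) ?_
  apply le_natDegree_of_ne_zero
  rw [mob, coeff_reflect, revAt_le le_rfl, Nat.sub_self, coeff_zero_eq_eval_zero, eval_comp]
  simpa using hk

theorem hv_mob {d : ℕ} {k : ℤ} {P : ℤ[X]} (hP : P.natDegree ≤ d) (u : ℤ) {v : ℤ} (hv0 : v ≠ 0) :
    hv d (mob d k P) v (u - k * v) = hv d P u v := by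
  rw [mob, hv_reflect, hv_comp hP k _ hv0]
  congr 1
  ring

theorem mob_fn {f : RatFunc ℚ} {d : ℕ} {P S : ℤ[X]} (h : Rep f d P S) {k : ℤ} (hP : P.eval k ≠ 0)
    (hS : S.eval k ≠ 0) : Fn d (mob d k P) (mob d k S) := by
  refine ⟨h.pos, natDegree_mob h.numd hP, natDegree_mob h.dend hS, ?_⟩
  have hc : ∀ Q : ℤ[X], (Q.comp (X + C k)).map ι = (Q.map ι).comp (X + C (k : ℚ)) := by
    intro Q
    rw [Polynomial.map_comp, Polynomial.map_add, Polynomial.map_X, Polynomial.map_C, ι_apply]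
  have h1 : IsCoprime ((P.comp (X + C k)).map ι) ((S.comp (X + C k)).map ι) := by
    rw [hc, hc]
    obtain ⟨a, b, hab⟩ := h.cop
    refine ⟨a.comp (X + C (k : ℚ)), b.comp (X + C (k : ℚ)), ?_⟩
    rw [← mul_comp, ← mul_comp, ← add_comp, hab, one_comp]
  have hne : ∀ {Q : ℤ[X]}, Q ≠ 0 → (Q.comp (X + C k)).map ι ≠ 0 := by
    intro Q hQ
    rw [Polynomial.map_ne_zero_iff (f := ι) Int.cast_injective]
    intro h0
    apply hQ
    rw [comp_eq_zero_iff] at h0
    rcases h0 with h0 | ⟨-, h0⟩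
    · exact h0
    · have h2 := congrArg natDegree h0
      rw [natDegree_X_add_C, natDegree_C] at h2
      omega
  rw [mob, mob, reflect_ι, reflect_ι]
  rcases h.full with h2 | h2
  · exact coprime_reflect (by rw [natDegree_ι, natDegree_comp_X_add]; exact h2) (hne h.num0)
      (by rw [natDegree_ι, natDegree_comp_X_add]; exact h.dend) h1
  · exact (coprime_reflect (by rw [natDegree_ι, natDegree_comp_X_add]; exact h2) (hne h.den0)
      (by rw [natDegree_ι, natDegree_comp_X_add]; exact h.numd) h1.symm).symm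

theorem mob_val {f : RatFunc ℚ} {d : ℕ} {P S : ℤ[X]} (h : Rep f d P S) (k : ℤ) {t : ℚ} {x : ℕ}
    (hx : 0 < x) (hv' : |f.eval (RingHom.id ℚ) t| = x) :
    Val d (mob d k P) (mob d k S) (t.den : ℤ) (t.num - k * t.den) x := by
  have hden : (t.den : ℤ) ≠ 0 := by exact_mod_cast t.den_nz
  have hxq : (0 : ℚ) < x := by exact_mod_cast hx
  rw [Val, hv_mob h.numd _ hden, hv_mob h.dend _ hden]
  obtain ⟨D, hD, e1, e2⟩ := h.val
  have ht : ((t.num : ℤ) : ℚ) / ((t.den : ℤ) : ℚ) = t := by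
    push_cast
    exact Rat.num_div_den t
  have v1 := hv_cast h.numd t.num hden
  have v2 := hv_cast h.dend t.num hden
  rw [ht, e1, eval_mul, eval_C] at v1
  rw [ht, e2, eval_mul, eval_C] at v2
  rw [RatFunc.eval, eval₂_id, eval₂_id] at hv'
  have hden0 : f.denom.eval t ≠ 0 := by
    intro h0
    rw [h0, div_zero, abs_zero] at hv'
    linarith
  have hdq : (((t.den : ℤ) : ℤ) : ℚ) ^ d ≠ 0 := pow_ne_zero _ (by exact_mod_cast hden)
  constructor
  · intro h0
    rw [h0, Int.cast_zero] at v2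
    exact mul_ne_zero hdq (mul_ne_zero hD hden0) v2.symm
  · have h3 : ((hv d P t.num t.den).natAbs : ℚ) = ((x * (hv d S t.num t.den).natAbs : ℕ) : ℚ) := by
      push_cast
      rw [Nat.cast_natAbs, Nat.cast_natAbs, Int.cast_abs, Int.cast_abs, v1, v2, ← hv', abs_div,
        abs_mul, abs_mul, abs_mul, abs_mul]
      have h4 : |f.denom.eval t| ≠ 0 := abs_ne_zero.mpr hden0
      field_simp
    exact_mod_cast h3

theorem exists_nonroot {P : ℤ[X]} (hP : P ≠ 0) : ∃ k : ℤ, P.eval k ≠ 0 := by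
  by_contra hcon
  push Not at hcon
  apply hP
  apply Polynomial.funext
  intro k
  rw [hcon k, eval_zero]

theorem params_finite {f g h : RatFunc ℚ} (hf : ∀ c, f ≠ RatFunc.C c) (hg : ∀ c, g ≠ RatFunc.C c)
    (hh : ∀ c, h ≠ RatFunc.C c) : {t : ℚ | ∃ x y z p q r : ℕ, Sol x y z p q r ∧
      |f.eval (RingHom.id ℚ) t| = x ∧ |g.eval (RingHom.id ℚ) t| = y ∧
      |h.eval (RingHom.id ℚ) t| = z}.Finite := by
  obtain ⟨d₁, P₁, S₁, r₁⟩ := exists_rep hf
  obtain ⟨d₂, P₂, S₂, r₂⟩ := exists_rep hg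
  obtain ⟨d₃, P₃, S₃, r₃⟩ := exists_rep hh
  obtain ⟨k, hk⟩ := exists_nonroot (mul_ne_zero (mul_ne_zero (mul_ne_zero r₁.num0 r₁.den0)
    (mul_ne_zero r₂.num0 r₂.den0)) (mul_ne_zero r₃.num0 r₃.den0))
  simp only [eval_mul, mul_ne_zero_iff] at hk
  obtain ⟨⟨⟨a1, a2⟩, a3, a4⟩, a5, a6⟩ := hk
  obtain ⟨T, hT⟩ := main_fin (mob_fn r₁ a1 a2) (mob_fn r₂ a3 a4) (mob_fn r₃ a5 a6)
  have hsub : {t : ℚ | ∃ x y z p q r : ℕ, Sol x y z p q r ∧
      |f.eval (RingHom.id ℚ) t| = x ∧ |g.eval (RingHom.id ℚ) t| = y ∧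
      |h.eval (RingHom.id ℚ) t| = z} ⊆ insert (k : ℚ) ((fun w : ℤ × ℤ => (w.1 : ℚ) / w.2) ''
        ((Set.Icc (-(T + k.natAbs * T : ℕ) : ℤ) (T + k.natAbs * T : ℕ)) ×ˢ (Set.Icc (0 : ℤ) T))) := by
    rintro t ⟨x, y, z, p, q, r, hs, hx, hy, hz⟩
    by_cases htk : t = k
    · exact Or.inl htk
    right
    have hden : (t.den : ℤ) ≠ 0 := by exact_mod_cast t.den_nz
    have hv0 : t.num - k * t.den ≠ 0 := by
      intro h0
      apply htk
      have h1 : ((t.num : ℤ) : ℚ) = k * t.den := by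
        have h2 : t.num = k * t.den := by linarith
        exact_mod_cast h2
      have h3 : (t.den : ℚ) ≠ 0 := by exact_mod_cast t.den_nz
      rw [← Rat.num_div_den t, h1, mul_div_assoc, div_self h3, mul_one]
    have hcop : IsCoprime (t.den : ℤ) (t.num - k * t.den) := by
      have h1 : IsCoprime (t.num : ℤ) (t.den : ℤ) := by
        rw [Int.isCoprime_iff_gcd_eq_one, Int.gcd_eq_natAbs_gcd_natAbs, Int.natAbs_natCast]
        exact t.reduced
      have h2 := IsCoprime.add_mul_left_right h1.symm (-k)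
      have h3 : t.num - k * t.den = t.num + t.den * (-k) := by ring
      rw [h3]
      exact h2
    have h1 := hT (t.den : ℤ) (t.num - k * t.den) x y z p q r hcop hv0 hs
      (mob_val r₁ k hs.1 hx) (mob_val r₂ k hs.2.1 hy) (mob_val r₃ k hs.2.2.1 hz)
    rw [max_le_iff, Int.natAbs_natCast] at h1
    refine ⟨(t.num, (t.den : ℤ)), ⟨?_, ?_⟩, ?_⟩
    · have h2 : t.num.natAbs ≤ T + k.natAbs * T := by
        calc t.num.natAbs = ((t.num - k * t.den) + k * t.den).natAbs := by congr 1; ring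
          _ ≤ (t.num - k * t.den).natAbs + (k * t.den).natAbs := Int.natAbs_add_le _ _
          _ ≤ T + k.natAbs * T := by
              rw [Int.natAbs_mul, Int.natAbs_natCast]
              exact Nat.add_le_add h1.2 (Nat.mul_le_mul_left _ h1.1)
      rw [Set.mem_Icc]
      omega
    · rw [Set.mem_Icc]
      refine ⟨by positivity, ?_⟩
      show (t.den : ℤ) ≤ T
      exact_mod_cast h1.1
    · simp only
      push_cast
      exact Rat.num_div_den t
  exact Set.Finite.subset (Set.Finite.insert _ (Set.Finite.image _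
    ((Set.finite_Icc _ _).prod (Set.finite_Icc _ _)))) hsub

/-- **Rational curves.** -/
theorem rational_curves (f g h : RatFunc ℚ) (hf : ∀ c, f ≠ RatFunc.C c)
    (hg : ∀ c, g ≠ RatFunc.C c) (hh : ∀ c, h ≠ RatFunc.C c) :
    {s : ℚ × (ℕ × ℕ × ℕ) | ∃ x y z p q r : ℕ, Sol x y z p q r ∧
      |f.eval (RingHom.id ℚ) s.1| = x ∧ |g.eval (RingHom.id ℚ) s.1| = y ∧
      |h.eval (RingHom.id ℚ) s.1| = z ∧ s.2 = (x ^ p, y ^ q, z ^ r)}.Finite := by
  have hfin := params_finite hf hg hh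
  obtain ⟨B, hB⟩ := (hfin.image fun t => |f.eval (RingHom.id ℚ) t| + |g.eval (RingHom.id ℚ) t| +
    |h.eval (RingHom.id ℚ) t|).bddAbove
  obtain ⟨N, hN⟩ := exists_nat_ge B
  refine (hfin.prod (finite_of_bases N)).subset ?_
  rintro ⟨t, w⟩ ⟨x, y, z, p, q, r, hs, hx, hy, hz, hw⟩
  have h1 : t ∈ {t : ℚ | ∃ x y z p q r : ℕ, Sol x y z p q r ∧
      |f.eval (RingHom.id ℚ) t| = x ∧ |g.eval (RingHom.id ℚ) t| = y ∧
      |h.eval (RingHom.id ℚ) t| = z} := ⟨x, y, z, p, q, r, hs, hx, hy, hz⟩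
  have h2 := (hB ⟨t, h1, rfl⟩).trans hN
  simp only at hx hy hz h2
  rw [hx, hy, hz] at h2
  have h3 : x + y + z ≤ N := by exact_mod_cast h2
  exact ⟨h1, x, y, z, p, q, r, hs, by omega, by omega, by omega, hw⟩

end Pool.Agent.Helper4.RC
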